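import Mathlib
import Pool.Agent.Work.MP_44129c_co.Defs

/-!
# MP_44129c_co/E, Defs (FIXED, do not change): stars with an integer lift and small excess

Paper: helper54 (`/team-store/44129c_helper54_2.md`), cut into modules by helper29.
`SL c u y`: the integers `y w` lift the colours `c u w` and every sum of `m` of them lies in
`[1, m - 1]`.  `LL` = the vertices with `y ≤ 0`, `HH` = the vertices with `y ≥ 1`, `exL`, `exH` the
excesses over the values `0`, `1`.  `rep b z` = the integer lift of `z` in `[b, b + m - 1]`.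
-/

set_option autoImplicit false

namespace ZS44129
namespace E

open Finset

variable {V : Type} [Fintype V] [DecidableEq V] {m : ℕ}

/-- `y` is an integer lift of the star of `u`. -/
structure SL (c : V → V → ZMod m) (u : V) (y : V → ℤ) : Prop where
  cast : ∀ w, w ≠ u → (y w : ZMod m) = c u w
  rng : ∀ A : Finset V, A ⊆ univ.erase u → A.card = m → 1 ≤ ∑ w ∈ A, y w ∧ ∑ w ∈ A, y w ≤ m - 1

/-- the low vertices. -/
def LL (u : V) (y : V → ℤ) : Finset V := (univ.erase u).filter (fun w => y w ≤ 0)

/-- the high vertices. -/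
def HH (u : V) (y : V → ℤ) : Finset V := (univ.erase u).filter (fun w => 1 ≤ y w)

/-- low excess. -/
def exL (u : V) (y : V → ℤ) : ℤ := ∑ w ∈ LL u y, (- y w)

/-- high excess. -/
def exH (u : V) (y : V → ℤ) : ℤ := ∑ w ∈ HH u y, (y w - 1)

/-- the integer lift of `z` in `[b, b + m - 1]`. -/
def rep (b : ℤ) (z : ZMod m) : ℤ := b + ((z - (b : ZMod m)).val : ℤ)

/-- `lo`: the least sum of `m` values (under (E)). -/
def lo (m : ℕ) (u : V) (y : V → ℤ) : ℤ := m - (LL u y).card - exL u y

/-- `ap`: `m` minus the largest sum of `m` values (under (E)). -/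
def ap (m : ℕ) (u : V) (y : V → ℤ) : ℤ := m - (HH u y).card - exH u y

/-- for a low vertex `x`: the high `w` with `c x w` high, seen from `x`. -/
def UU (c : V → V → ZMod m) (u : V) (y : V → ℤ) (x : V) : Finset V :=
  (HH u y).filter (fun w => 1 ≤ rep (2 - lo m u y) (c x w))

/-- for a low vertex `x`: the high `w` with `c x w` low, seen from `x`. -/
def KK (c : V → V → ZMod m) (u : V) (y : V → ℤ) (x : V) : Finset V :=
  (HH u y).filter (fun w => rep (2 - lo m u y) (c x w) ≤ 0)

/-- for a high vertex `w`: the low `x` with `c w x` low, seen from `w`. -/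
def PP (c : V → V → ZMod m) (u : V) (y : V → ℤ) (w : V) : Finset V :=
  (LL u y).filter (fun x => rep (ap m u y - m) (c w x) ≤ 0)

end E
end ZS44129
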