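import Mathlib
import Pool.Agent.Work.MP_44129c_co.E.Defs

/-!
# MP_44129c_co/E, Basic (size S-M): first consequences of (E)

PROOF.  `card_LH`: `LL` and `HH` partition `univ.erase u` (`|V| - 1 = m + s - 1`).
`card_H_lt`: if `|HH| ≥ m`, `m` elements of `HH` have sum `≥ m`, contradiction to `rng`.  `card_L_lt`: `m` elements of
`LL` have sum `≤ 0`.
`ap_pos`: the number of `w ∈ LL` with `y w < 0` is `≤ exL ≤ s - 2`, so at least `|LL| - (s - 2) = m + s - 1 - |HH| - s + 2 =
m - |HH| + 1` elements of `LL` have `y = 0`; `HH` and `m - |HH|` of them have `m` elements and sum `|HH| + exH ≤ m - 1`.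
`lo_pos`: the same with `LL` and `m - |LL|` elements of `HH` with `y = 1`: sum `- exL + m - |LL| ≥ 1`.
`exL_le`: `exL ≤ |HH| - s` (from `lo_pos` and `card_LH`), `exH_le`.
-/

set_option autoImplicit false

namespace ZS44129
namespace E

open Finset

variable {V : Type} [Fintype V] [DecidableEq V] {m : ℕ}

theorem mem_LL {u : V} {y : V → ℤ} {w : V} : w ∈ LL u y ↔ w ≠ u ∧ y w ≤ 0 := by
  simp [LL]

theorem mem_HH {u : V} {y : V → ℤ} {w : V} : w ∈ HH u y ↔ w ≠ u ∧ 1 ≤ y w := by
  simp [HH]

theorem disj_LH (u : V) (y : V → ℤ) : Disjoint (LL u y) (HH u y) := by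
  rw [Finset.disjoint_left]
  intro w h1 h2
  have h3 := (mem_LL.1 h1).2
  have h4 := (mem_HH.1 h2).2
  omega

theorem card_LH {s : ℕ} (hV : Fintype.card V = m + s) (hs : 1 ≤ s) (u : V) (y : V → ℤ) :
    (LL u y).card + (HH u y).card + 1 = m + s := by
  have h1 : HH u y = (univ.erase u).filter (fun w => ¬ y w ≤ 0) := by
    unfold HH
    apply Finset.filter_congr
    intro w _
    constructor <;> intro h <;> omega
  have h2 := Finset.card_filter_add_card_filter_not (s := univ.erase u) (fun w => y w ≤ 0)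
  rw [← h1] at h2
  have h3 : (univ.erase u).card + 1 = m + s := by
    rw [Finset.card_erase_of_mem (Finset.mem_univ u), Finset.card_univ, hV]
    omega
  unfold LL
  omega

theorem exL_nonneg (u : V) (y : V → ℤ) : 0 ≤ exL u y :=
  Finset.sum_nonneg (fun w hw => by have := (mem_LL.1 hw).2; omega)

theorem exH_nonneg (u : V) (y : V → ℤ) : 0 ≤ exH u y :=
  Finset.sum_nonneg (fun w hw => by have := (mem_HH.1 hw).2; omega)

theorem card_H_lt {c : V → V → ZMod m} {u : V} {y : V → ℤ} (h : SL c u y) :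
    (HH u y).card + 1 ≤ m := by
  by_contra hcon
  have h1 : m ≤ (HH u y).card := by omega
  obtain ⟨A, hA, hAc⟩ := Finset.exists_subset_card_eq h1
  have h2 := (h.rng A (hA.trans (Finset.filter_subset _ _)) hAc).2
  have h3 : (A.card : ℤ) ≤ ∑ w ∈ A, y w := by
    have h4 : ∑ _w ∈ A, (1 : ℤ) ≤ ∑ w ∈ A, y w :=
      Finset.sum_le_sum (fun w hw => (mem_HH.1 (hA hw)).2)
    simpa using h4
  rw [hAc] at h3
  linarith

theorem card_L_lt {c : V → V → ZMod m} {u : V} {y : V → ℤ} (h : SL c u y) :
    (LL u y).card + 1 ≤ m := by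
  by_contra hcon
  have h1 : m ≤ (LL u y).card := by omega
  obtain ⟨A, hA, hAc⟩ := Finset.exists_subset_card_eq h1
  have h2 := (h.rng A (hA.trans (Finset.filter_subset _ _)) hAc).1
  have h3 : ∑ w ∈ A, y w ≤ 0 :=
    Finset.sum_nonpos (fun w hw => (mem_LL.1 (hA hw)).2)
  linarith

private theorem card_LL0 (u : V) (y : V → ℤ) :
    ((LL u y).card : ℤ) - exL u y ≤ (((LL u y).filter (fun w => y w = 0)).card : ℤ) := by
  have h1 : ((LL u y).card : ℤ) - exL u y = ∑ w ∈ LL u y, (1 + y w) := by
    unfold exL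
    rw [Finset.sum_add_distrib, Finset.sum_neg_distrib]
    simp
  have h2 : (((LL u y).filter (fun w => y w = 0)).card : ℤ) =
      ∑ w ∈ LL u y, (if y w = 0 then 1 else 0) := by
    rw [Finset.card_filter]
    push_cast
    rfl
  rw [h1, h2]
  apply Finset.sum_le_sum
  intro w hw
  have h3 := (mem_LL.1 hw).2
  split_ifs <;> omega

private theorem card_HH1 (u : V) (y : V → ℤ) :
    ((HH u y).card : ℤ) - exH u y ≤ (((HH u y).filter (fun w => y w = 1)).card : ℤ) := by
  have h1 : ((HH u y).card : ℤ) - exH u y = ∑ w ∈ HH u y, (1 - (y w - 1)) := by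
    unfold exH
    rw [Finset.sum_sub_distrib (fun _ => (1 : ℤ)) (fun w => y w - 1)]
    simp
  have h2 : (((HH u y).filter (fun w => y w = 1)).card : ℤ) =
      ∑ w ∈ HH u y, (if y w = 1 then 1 else 0) := by
    rw [Finset.card_filter]
    push_cast
    rfl
  rw [h1, h2]
  apply Finset.sum_le_sum
  intro w hw
  have h3 := (mem_HH.1 hw).2
  split_ifs <;> omega

theorem ap_pos {c : V → V → ZMod m} {u : V} {y : V → ℤ} (h : SL c u y) {s : ℕ}
    (hV : Fintype.card V = m + s) (hL : exL u y + 2 ≤ s) : 1 ≤ ap m u y := by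
  have hs : 1 ≤ s := by
    have := exL_nonneg u y
    have h0 : (2 : ℤ) ≤ s := by linarith
    omega
  have hc := card_LH hV hs u y
  have hH := card_H_lt h
  have hz := card_LL0 u y
  have h1 : m - (HH u y).card ≤ ((LL u y).filter (fun w => y w = 0)).card := by
    zify [show (HH u y).card ≤ m by omega]
    have h2 : ((LL u y).card : ℤ) + (HH u y).card + 1 = m + s := by exact_mod_cast hc
    linarith
  obtain ⟨B, hB, hBc⟩ := Finset.exists_subset_card_eq h1
  have hBL : B ⊆ LL u y := hB.trans (Finset.filter_subset _ _)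
  have hd : Disjoint (HH u y) B := (disj_LH u y).symm.mono_right hBL
  have h3 := (h.rng (HH u y ∪ B) (Finset.union_subset (Finset.filter_subset _ _)
    (hBL.trans (Finset.filter_subset _ _))) (by
      rw [Finset.card_union_of_disjoint hd, hBc]
      omega)).2
  rw [Finset.sum_union hd] at h3
  have h4 : ∑ w ∈ B, y w = 0 :=
    Finset.sum_eq_zero (fun w hw => (Finset.mem_filter.1 (hB hw)).2)
  have h5 : ∑ w ∈ HH u y, y w = (HH u y).card + exH u y := by
    unfold exH
    rw [Finset.sum_sub_distrib]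
    simp
  rw [h4, h5] at h3
  unfold ap
  linarith

theorem lo_pos {c : V → V → ZMod m} {u : V} {y : V → ℤ} (h : SL c u y) {s : ℕ}
    (hV : Fintype.card V = m + s) (hH : exH u y + 2 ≤ s) : 1 ≤ lo m u y := by
  have hs : 1 ≤ s := by
    have := exH_nonneg u y
    have h0 : (2 : ℤ) ≤ s := by linarith
    omega
  have hc := card_LH hV hs u y
  have hL := card_L_lt h
  have hz := card_HH1 u y
  have h1 : m - (LL u y).card ≤ ((HH u y).filter (fun w => y w = 1)).card := by
    zify [show (LL u y).card ≤ m by omega]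
    have h2 : ((LL u y).card : ℤ) + (HH u y).card + 1 = m + s := by exact_mod_cast hc
    linarith
  obtain ⟨B, hB, hBc⟩ := Finset.exists_subset_card_eq h1
  have hBH : B ⊆ HH u y := hB.trans (Finset.filter_subset _ _)
  have hd : Disjoint (LL u y) B := (disj_LH u y).mono_right hBH
  have h3 := (h.rng (LL u y ∪ B) (Finset.union_subset (Finset.filter_subset _ _)
    (hBH.trans (Finset.filter_subset _ _))) (by
      rw [Finset.card_union_of_disjoint hd, hBc]
      omega)).1
  rw [Finset.sum_union hd] at h3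
  have h4 : ∑ w ∈ B, y w = B.card := by
    rw [Finset.sum_congr rfl (fun w hw => (Finset.mem_filter.1 (hB hw)).2)]
    simp
  have h5 : ∑ w ∈ LL u y, y w = - exL u y := by
    unfold exL
    rw [Finset.sum_neg_distrib, neg_neg]
  rw [h4, h5, hBc] at h3
  rw [Nat.cast_sub (show (LL u y).card ≤ m by omega)] at h3
  unfold lo
  linarith

/-- the sum of `lo` and `ap`. -/
theorem lo_add_ap {s : ℕ} (hV : Fintype.card V = m + s) (hs : 1 ≤ s) (u : V) (y : V → ℤ) :
    lo m u y + ap m u y = m - s + 1 - exL u y - exH u y := by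
  have h1 := card_LH hV hs u y
  have h2 : ((LL u y).card : ℤ) + (HH u y).card + 1 = m + s := by exact_mod_cast h1
  unfold lo ap
  linarith

theorem exL_le {c : V → V → ZMod m} {u : V} {y : V → ℤ} (h : SL c u y) {s : ℕ}
    (hV : Fintype.card V = m + s) (hH : exH u y + 2 ≤ s) :
    s + exL u y ≤ ((HH u y).card : ℤ) := by
  have hs : 1 ≤ s := by
    have := exH_nonneg u y
    have h0 : (2 : ℤ) ≤ s := by linarith
    omega
  have h1 := lo_pos h hV hH
  have hc := card_LH hV hs u y
  have h2 : ((LL u y).card : ℤ) + (HH u y).card + 1 = m + s := by exact_mod_cast hc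
  unfold lo at h1
  linarith

theorem exH_le {c : V → V → ZMod m} {u : V} {y : V → ℤ} (h : SL c u y) {s : ℕ}
    (hV : Fintype.card V = m + s) (hL : exL u y + 2 ≤ s) :
    s + exH u y ≤ ((LL u y).card : ℤ) := by
  have hs : 1 ≤ s := by
    have := exL_nonneg u y
    have h0 : (2 : ℤ) ≤ s := by linarith
    omega
  have h1 := ap_pos h hV hL
  have hc := card_LH hV hs u y
  have h2 : ((LL u y).card : ℤ) + (HH u y).card + 1 = m + s := by exact_mod_cast hc
  unfold ap at h1
  linarith

end E
end ZS44129
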