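import Mathlib
import Pool.Agent.Work.MP_44129c_co.E.Defs

/-!
# MP_44129c_co/E, GF (size M): gap free families

PROOF of `gf`.  Induction on `q`.  `b x = y x - 1 ≥ 0` on `P`, `k x = - y x ≥ 0` on `N`, `B`, `K` their sums.
* `q = 1`: `B = K = 0`, take one element of `N` (`τ = 0`) or of `P` (`τ = 1`).
* `q ≥ 2`, `B ≤ q - 2`, `K ≤ q - 2`: some `p ∈ P` has `b p = 0` (otherwise `B ≥ |P| ≥ q`), some `n ∈ N` has
  `k n = 0`.  IH for `P - p`, `N - n`, `q - 1`: all of `[-K, q - 1 + B]`.  If `τ ≤ q - 1 + B` add `n`, otherwise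
  `τ = q + B`, take `τ - 1` and add `p`.
* `B = q - 1`, `K ≤ q - 2`: take `p ∈ P` with `b = b p ≥ 1` and `n ∈ N` with `k n = 0`.  IH: all of
  `[-K, q - 1 + B - b]`.  If `τ ≤ q - 1 + B - b` add `n`; otherwise add `p`: `τ - (b + 1) ≥ q + B - 2 b - 1 ≥ 0 ≥ - K`
  as `b ≤ B = q - 1`.
* `K = q - 1`, `B ≤ q - 2`: take `n ∈ N` with `k = k n ≥ 1`, `p ∈ P` with `b p = 0`.  IH: all of `[-(K - k), q - 1 + B]`.
  If `τ ≥ - K + k + 1` add `p`; otherwise add `n`: `τ + k ≤ 2 k - K ≤ q - 1 + B` as `k ≤ K = q - 1`.
* `B = K = q - 1`: if some `p ∈ P` has `b = b p ≥ 1`, `2 b ≤ q - 1` or some `n ∈ N` has `k = k n ≥ 1`, `2 k ≤ q - 1`: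
  take such a pair `p, n` with `b, k ≥ 1` (the other one arbitrary with excess `≥ 1`); `2 b + 2 k ≤ 3 (q - 1)`.
  IH for `P - p`, `N - n`: all of `[-(K - k), q - 1 + B - b]`; adding `n` gives `[-K, q - 1 + B - b - k]`, adding `p`
  gives `[-K + k + b + 1, q + B]`, and `k + b + 1 - K ≤ q + B - b - k` because `2 b + 2 k + 1 ≤ 3 q - 2 = q + B + K`.
  Otherwise there is exactly one `p` with `b p ≥ 1`, it has `b p = q - 1` (two of them: the smaller one has
  `2 b ≤ B = q - 1`), and exactly one `n` with `k n ≥ 1`, `k n = q - 1`; all other elements of `P` have `y = 1`, of `N`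
  `y = 0` (at least `q - 1` of each).  Direct: `τ ≤ 0`: `n`, `τ + q - 1` ones, `-τ` zeros; `1 ≤ τ ≤ q - 1`: `τ` ones and `q - τ`
  zeros; `q ≤ τ`: `p`, `τ - q` ones, `2 q - 1 - τ` zeros.
-/

set_option autoImplicit false

namespace ZS44129
namespace E

open Finset

private theorem gf_const {V : Type} (y : V → ℤ) (c : ℤ) (A : Finset V)
    (hA : ∀ x ∈ A, y x = c) (a : ℤ) (h0 : 0 ≤ a) (ha : a ≤ A.card) :
    ∃ X, X ⊆ A ∧ (X.card : ℤ) = a ∧ ∑ x ∈ X, y x = a * c := by
  obtain ⟨X, hX, hc⟩ := Finset.exists_subset_card_eq (s := A) (n := a.toNat) (by omega)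
  refine ⟨X, hX, by omega, ?_⟩
  rw [Finset.sum_congr rfl (fun x hx => hA x (hX hx)), Finset.sum_const, nsmul_eq_mul]
  have : (X.card : ℤ) = a := by omega
  rw [← this]

private theorem gf_excess {V : Type} [DecidableEq V] (f : V → ℤ) (P : Finset V) (r : ℤ)
    (hf : ∀ x ∈ P, 0 ≤ f x) (hB : ∑ x ∈ P, f x = r) (hr : 1 ≤ r)
    (hno : ∀ x ∈ P, 1 ≤ f x → r < 2 * f x) :
    ∃ p ∈ P, f p = r ∧ ∀ x ∈ P.erase p, f x = 0 := by
  obtain ⟨p, hp, hp1⟩ : ∃ p ∈ P, 1 ≤ f p := by
    by_contra hcon
    push Not at hcon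
    have : ∑ x ∈ P, f x = 0 := Finset.sum_eq_zero (fun x hx => by
      have a := hf x hx
      have b := hcon x hx
      omega)
    omega
  have hsum : f p + ∑ x ∈ P.erase p, f x = ∑ x ∈ P, f x := Finset.add_sum_erase P f hp
  have hz : ∀ x ∈ P.erase p, f x = 0 := by
    intro x hx
    have hxP := (Finset.mem_erase.1 hx).2
    have h0 := hf x hxP
    by_contra hne
    have h1 : 1 ≤ f x := by omega
    have h2 := hno x hxP h1
    have h3 := hno p hp hp1
    have h4 : f x ≤ ∑ x ∈ P.erase p, f x :=
      Finset.single_le_sum (f := f) (fun i hi => hf i (Finset.mem_erase.1 hi).2) hx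
    omega
  refine ⟨p, hp, ?_, hz⟩
  have : ∑ x ∈ P.erase p, f x = 0 := Finset.sum_eq_zero hz
  omega

theorem gf {V : Type} [DecidableEq V] (y : V → ℤ) (q : ℕ) (hq : 1 ≤ q) (P N : Finset V)
    (hPN : Disjoint P N) (hP : ∀ x ∈ P, 1 ≤ y x) (hN : ∀ x ∈ N, y x ≤ 0) (hPc : q ≤ P.card)
    (hNc : q ≤ N.card) (hB : ∑ x ∈ P, (y x - 1) + 1 ≤ q) (hK : ∑ x ∈ N, (- y x) + 1 ≤ q) (τ : ℤ)
    (h1 : - ∑ x ∈ N, (- y x) ≤ τ) (h2 : τ ≤ q + ∑ x ∈ P, (y x - 1)) :
    ∃ Q, Q ⊆ P ∪ N ∧ Q.card = q ∧ ∑ x ∈ Q, y x = τ := by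
  induction q generalizing P N τ with
  | zero => omega
  | succ r ih =>
    set B := ∑ x ∈ P, (y x - 1) with hBd
    set K := ∑ x ∈ N, (- y x) with hKd
    have hb0 : ∀ x ∈ P, 0 ≤ y x - 1 := fun x hx => by have := hP x hx; omega
    have hk0 : ∀ x ∈ N, 0 ≤ - y x := fun x hx => by have := hN x hx; omega
    have hB0 : 0 ≤ B := Finset.sum_nonneg hb0
    have hK0 : 0 ≤ K := Finset.sum_nonneg hk0
    have hbB : ∀ x ∈ P, y x - 1 ≤ B := fun x hx =>
      Finset.single_le_sum (f := fun x => y x - 1) hb0 hx
    have hkK : ∀ x ∈ N, - y x ≤ K := fun x hx =>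
      Finset.single_le_sum (f := fun x => - y x) hk0 hx
    have hnP : ∀ x ∈ N, x ∉ P := fun x hx hx' => Finset.disjoint_left.1 hPN hx' hx
    have hpN : ∀ x ∈ P, x ∉ N := fun x hx hx' => Finset.disjoint_left.1 hPN hx hx'
    rcases Nat.eq_zero_or_pos r with hr | hr
    · subst hr
      obtain ⟨p, hp⟩ := Finset.card_pos.1 (by omega : 0 < P.card)
      obtain ⟨n, hn⟩ := Finset.card_pos.1 (by omega : 0 < N.card)
      have e1 := hbB p hp
      have e2 := hkK n hn
      have e3 := hP p hp
      have e4 := hN n hn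
      push_cast at hB hK h2
      rcases (by omega : τ = 0 ∨ τ = 1) with h | h
      · refine ⟨{n}, ?_, by simp, ?_⟩
        · exact Finset.singleton_subset_iff.2 (Finset.mem_union_right _ hn)
        · rw [Finset.sum_singleton]; omega
      · refine ⟨{p}, ?_, by simp, ?_⟩
        · exact Finset.singleton_subset_iff.2 (Finset.mem_union_left _ hp)
        · rw [Finset.sum_singleton]; omega
    · push_cast at hB hK h2
      -- the main step
      have step : ∀ p ∈ P, ∀ n ∈ N, B - (y p - 1) + 1 ≤ r → K - (- y n) + 1 ≤ r →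
          2 * (y p - 1) + 2 * (- y n) ≤ r + B + K →
          ∃ Q, Q ⊆ P ∪ N ∧ Q.card = r + 1 ∧ ∑ x ∈ Q, y x = τ := by
        intro p hp n hn hb hk hbk
        have eP : (y p - 1) + ∑ x ∈ P.erase p, (y x - 1) = B :=
          Finset.add_sum_erase P (fun x => y x - 1) hp
        have eN : (- y n) + ∑ x ∈ N.erase n, (- y x) = K :=
          Finset.add_sum_erase N (fun x => - y x) hn
        have cP : (P.erase p).card = P.card - 1 := Finset.card_erase_of_mem hp
        have cN : (N.erase n).card = N.card - 1 := Finset.card_erase_of_mem hn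
        have hyp := hb0 p hp
        have hyn := hk0 n hn
        have IH : ∀ σ : ℤ, - (K - (- y n)) ≤ σ → σ ≤ r + (B - (y p - 1)) →
            ∃ Q, Q ⊆ P.erase p ∪ N.erase n ∧ Q.card = r ∧ ∑ x ∈ Q, y x = σ := by
          intro σ hs1 hs2
          refine ih hr (P.erase p) (N.erase n) ?_ ?_ ?_ (by omega) (by omega) ?_ ?_ σ ?_ ?_
          · exact Finset.disjoint_of_subset_left (Finset.erase_subset _ _)
              (Finset.disjoint_of_subset_right (Finset.erase_subset _ _) hPN)
          · exact fun x hx => hP x (Finset.mem_erase.1 hx).2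
          · exact fun x hx => hN x (Finset.mem_erase.1 hx).2
          · omega
          · omega
          · omega
          · omega
        have hsub : P.erase p ∪ N.erase n ⊆ P ∪ N :=
          Finset.union_subset_union (Finset.erase_subset _ _) (Finset.erase_subset _ _)
        by_cases hc : τ ≤ r + B - (y p - 1) - (- y n)
        · obtain ⟨Q, hQ, hQc, hQs⟩ := IH (τ + (- y n)) (by omega) (by omega)
          have hnQ : n ∉ Q := by
            intro h
            rcases Finset.mem_union.1 (hQ h) with h' | h'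
            · exact hnP n hn (Finset.mem_erase.1 h').2
            · exact (Finset.mem_erase.1 h').1 rfl
          refine ⟨insert n Q, ?_, ?_, ?_⟩
          · exact Finset.insert_subset (Finset.mem_union_right _ hn) (hQ.trans hsub)
          · rw [Finset.card_insert_of_notMem hnQ, hQc]
          · rw [Finset.sum_insert hnQ, hQs]; ring
        · obtain ⟨Q, hQ, hQc, hQs⟩ := IH (τ - y p) (by omega) (by omega)
          have hpQ : p ∉ Q := by
            intro h
            rcases Finset.mem_union.1 (hQ h) with h' | h'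
            · exact (Finset.mem_erase.1 h').1 rfl
            · exact hpN p hp (Finset.mem_erase.1 h').2
          refine ⟨insert p Q, ?_, ?_, ?_⟩
          · exact Finset.insert_subset (Finset.mem_union_left _ hp) (hQ.trans hsub)
          · rw [Finset.card_insert_of_notMem hpQ, hQc]
          · rw [Finset.sum_insert hpQ, hQs]; ring
      -- elements without excess
      have hPz : B + 1 ≤ r → ∃ p ∈ P, y p - 1 = 0 := by
        intro hBr
        by_contra hcon
        push Not at hcon
        have h : ∑ x ∈ P, (1 : ℤ) ≤ B := Finset.sum_le_sum (fun x hx => by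
          have a := hb0 x hx
          have b := hcon x hx
          omega)
        rw [Finset.sum_const, nsmul_eq_mul, mul_one] at h
        omega
      have hNz : K + 1 ≤ r → ∃ n ∈ N, - y n = 0 := by
        intro hKr
        by_contra hcon
        push Not at hcon
        have h : ∑ x ∈ N, (1 : ℤ) ≤ K := Finset.sum_le_sum (fun x hx => by
          have a := hk0 x hx
          have b := hcon x hx
          omega)
        rw [Finset.sum_const, nsmul_eq_mul, mul_one] at h
        omega
      -- elements with excess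
      have hPo : 1 ≤ B → ∃ p ∈ P, 1 ≤ y p - 1 := by
        intro hB1
        by_contra hcon
        push Not at hcon
        have : B = 0 := Finset.sum_eq_zero (fun x hx => by
          have a := hb0 x hx
          have b := hcon x hx
          omega)
        omega
      have hNo : 1 ≤ K → ∃ n ∈ N, 1 ≤ - y n := by
        intro hK1
        by_contra hcon
        push Not at hcon
        have : K = 0 := Finset.sum_eq_zero (fun x hx => by
          have a := hk0 x hx
          have b := hcon x hx
          omega)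
        omega
      by_cases cB : B + 1 ≤ r
      · obtain ⟨p, hp, hp0⟩ := hPz cB
        by_cases cK : K + 1 ≤ r
        · obtain ⟨n, hn, hn0⟩ := hNz cK
          exact step p hp n hn (by omega) (by omega) (by omega)
        · obtain ⟨n, hn, hn1⟩ := hNo (by omega)
          have := hkK n hn
          exact step p hp n hn (by omega) (by omega) (by omega)
      · obtain ⟨p, hp, hp1⟩ := hPo (by omega)
        have hpB := hbB p hp
        by_cases cK : K + 1 ≤ r
        · obtain ⟨n, hn, hn0⟩ := hNz cK
          exact step p hp n hn (by omega) (by omega) (by omega)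
        · obtain ⟨n, hn, hn1⟩ := hNo (by omega)
          have hnK := hkK n hn
          have eB : B = r := by omega
          have eK : K = r := by omega
          by_cases dB : ∃ p ∈ P, 1 ≤ y p - 1 ∧ 2 * (y p - 1) ≤ r
          · obtain ⟨p', hp', hq1, hq2⟩ := dB
            exact step p' hp' n hn (by omega) (by omega) (by omega)
          by_cases dK : ∃ n ∈ N, 1 ≤ - y n ∧ 2 * (- y n) ≤ r
          · obtain ⟨n', hn', hq1, hq2⟩ := dK
            exact step p hp n' hn' (by omega) (by omega) (by omega)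
          push Not at dB dK
          obtain ⟨p₀, hp₀, hp₀r, hp₀z⟩ := gf_excess (fun x => y x - 1) P r hb0 eB (by omega) dB
          obtain ⟨n₀, hn₀, hn₀r, hn₀z⟩ := gf_excess (fun x => - y x) N r hk0 eK (by omega) dK
          have cP : (P.erase p₀).card = P.card - 1 := Finset.card_erase_of_mem hp₀
          have cN : (N.erase n₀).card = N.card - 1 := Finset.card_erase_of_mem hn₀
          have ones : ∀ a : ℤ, 0 ≤ a → a ≤ r → ∃ X, X ⊆ P.erase p₀ ∧ (X.card : ℤ) = a ∧
              ∑ x ∈ X, y x = a * 1 := fun a ha0 har =>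
            gf_const y 1 (P.erase p₀) (fun x hx => by have := hp₀z x hx; omega) a ha0 (by omega)
          have zeros : ∀ a : ℤ, 0 ≤ a → a ≤ r → ∃ X, X ⊆ N.erase n₀ ∧ (X.card : ℤ) = a ∧
              ∑ x ∈ X, y x = a * 0 := fun a ha0 har =>
            gf_const y 0 (N.erase n₀) (fun x hx => by have := hn₀z x hx; omega) a ha0 (by omega)
          have join : ∀ X Y : Finset V, X ⊆ P.erase p₀ → Y ⊆ N.erase n₀ →
              X ∪ Y ⊆ P ∪ N ∧ (X ∪ Y).card = X.card + Y.card ∧
              ∑ x ∈ X ∪ Y, y x = ∑ x ∈ X, y x + ∑ x ∈ Y, y x ∧ p₀ ∉ X ∪ Y ∧ n₀ ∉ X ∪ Y := by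
            intro X Y hX hY
            have hXP := hX.trans (Finset.erase_subset _ _)
            have hYN := hY.trans (Finset.erase_subset _ _)
            have hd : Disjoint X Y :=
              Finset.disjoint_of_subset_left hXP (Finset.disjoint_of_subset_right hYN hPN)
            refine ⟨Finset.union_subset_union hXP hYN, Finset.card_union_of_disjoint hd,
              Finset.sum_union hd, ?_, ?_⟩
            · intro h
              rcases Finset.mem_union.1 h with h' | h'
              · exact (Finset.mem_erase.1 (hX h')).1 rfl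
              · exact hpN p₀ hp₀ (hYN h')
            · intro h
              rcases Finset.mem_union.1 h with h' | h'
              · exact hnP n₀ hn₀ (hXP h')
              · exact (Finset.mem_erase.1 (hY h')).1 rfl
          rcases (by omega : τ ≤ 0 ∨ (1 ≤ τ ∧ τ ≤ r) ∨ (r : ℤ) + 1 ≤ τ) with h | h | h
          · obtain ⟨X, hX, hXc, hXs⟩ := ones (τ + r) (by omega) (by omega)
            obtain ⟨Y, hY, hYc, hYs⟩ := zeros (-τ) (by omega) (by omega)
            obtain ⟨j1, j2, j3, j4, j5⟩ := join X Y hX hY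
            refine ⟨insert n₀ (X ∪ Y), Finset.insert_subset (Finset.mem_union_right _ hn₀) j1,
              ?_, ?_⟩
            · rw [Finset.card_insert_of_notMem j5, j2]; omega
            · rw [Finset.sum_insert j5, j3, hXs, hYs]; omega
          · obtain ⟨X, hX, hXc, hXs⟩ := ones τ (by omega) (by omega)
            obtain ⟨Y, hY, hYc, hYs⟩ := zeros (r + 1 - τ) (by omega) (by omega)
            obtain ⟨j1, j2, j3, j4, j5⟩ := join X Y hX hY
            refine ⟨X ∪ Y, j1, ?_, ?_⟩
            · rw [j2]; omega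
            · rw [j3, hXs, hYs]; omega
          · obtain ⟨X, hX, hXc, hXs⟩ := ones (τ - r - 1) (by omega) (by omega)
            obtain ⟨Y, hY, hYc, hYs⟩ := zeros (2 * r + 1 - τ) (by omega) (by omega)
            obtain ⟨j1, j2, j3, j4, j5⟩ := join X Y hX hY
            refine ⟨insert p₀ (X ∪ Y), Finset.insert_subset (Finset.mem_union_left _ hp₀) j1,
              ?_, ?_⟩
            · rw [Finset.card_insert_of_notMem j4, j2]; omega
            · rw [Finset.sum_insert j4, j3, hXs, hYs]; omega

end E
end ZS44129
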