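import Mathlib
import Pool.Agent.Work.MP_44129c_co.E.Basic
import Pool.Agent.Work.MP_44129c_co.E.GF

/-!
# MP_44129c_co/E, Fam (size M): double stars with a given set `W` of leaves at `x`

`t` gives integer lifts of the colours `c x w`, `w ∈ W`.
PROOF of `fam`.  `P = HH \ W`, `N = LL.erase x`, `q = s - 1`.  `|P| = |HH| - |W| ≥ |HH| - m + |LL| = s - 1`, `|N| = |LL| - 1 ≥ s - 1`
(`exH_le`, `exH ≥ 0`).  Excess of `P` is `exH - ∑_W (y - 1) ≤ exH ≤ s - 2`, of `N` it is `exL + y x ≤ exL ≤ s - 2`.  Let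
`tot = y x + ∑_W t + ∑_N y + ∑_P y`.  Then `tot = lo - ∑_W (1 - t) + (s - 1) + (excess of P)`
(`∑_LL y = - exL = lo - m + |LL|`, `∑_P y = |HH| - |W| + excess of P`, `|LL| + |HH| = m + s - 1`).  By the bounds for `τ`,
`tot - τ` lies in `[- (excess of N), (s - 1) + (excess of P)]`, so `gf` gives `Q ⊆ P ∪ N` with `|Q| = s - 1` and `∑_Q y = tot - τ`.
The double star with centre edge `u x`, leaves `(P ∪ N) \ Q` at `u` and `W` at `x` has
`1 + |P| + |N| - (s - 1) + |W| = m` edges and its sum is the image of `y x + ∑_W t + ∑_{(P ∪ N) \ Q} y = τ`.  So `m ∣ τ`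
contradicts `ZSF`.
PROOF of `fam2` (`|W| = m - |LL| + 1`, all low values are `0`): `|P| = s - 2 ≥ 1`.  Take `n₀ ∈ N` (`y n₀ = 0`) and apply `gf` with
`q = s - 2` to `P` and `N.erase n₀` (`|N| - 1 ≥ s - 2`; excess of `P` is `≤ exH ≤ s - 3`, excess of `N` is `0`):
`tot - τ ∈ [0, s - 2 + (excess of P)]`; put `Q = insert n₀ Q'`.
-/

set_option autoImplicit false

namespace ZS44129
namespace E

open Finset

variable {V : Type} [Fintype V] [DecidableEq V] {m : ℕ}

/-- sums over the high vertices outside `W`. -/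
private theorem exH_split (u : V) (y : V → ℤ) (W : Finset V) (hW : W ⊆ HH u y) :
    ∑ w ∈ HH u y \ W, (y w - 1) = exH u y - ∑ w ∈ W, (y w - 1) := by
  have h := Finset.sum_sdiff (f := fun w => y w - 1) hW
  unfold exH
  linarith

/-- sums over the low vertices without `x`. -/
private theorem exL_split (u : V) (y : V → ℤ) {x : V} (hx : x ∈ LL u y) :
    ∑ w ∈ (LL u y).erase x, (- y w) = exL u y + y x := by
  have h := Finset.add_sum_erase (LL u y) (fun w => - y w) hx
  unfold exL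
  linarith

private theorem sumHW_nonneg (u : V) (y : V → ℤ) (W : Finset V) (hW : W ⊆ HH u y) :
    0 ≤ ∑ w ∈ W, (y w - 1) :=
  Finset.sum_nonneg (fun w hw => by have := (mem_HH.1 (hW hw)).2; omega)

/-- the double star. -/
private theorem core [NeZero m] {c : V → V → ZMod m} (hz : ZSF m c) {u : V}
    {y : V → ℤ} (h : SL c u y) {s : ℕ} (hcard : (LL u y).card + (HH u y).card + 1 = m + s)
    {x : V} (hx : x ∈ LL u y) (W : Finset V) (hW : W ⊆ HH u y) (t : V → ℤ)
    (ht : ∀ w ∈ W, (t w : ZMod m) = c x w) (τ : ℤ) (Q : Finset V)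
    (hQ : Q ⊆ (HH u y \ W) ∪ (LL u y).erase x) (hQc : Q.card + 1 = s)
    (hQs : ∑ w ∈ Q, y w = lo m u y - ∑ w ∈ W, (1 - t w) + (s - 1) +
      (exH u y - ∑ w ∈ W, (y w - 1)) - τ) : ¬ (m : ℤ) ∣ τ := by
  intro hdvd
  have hxu : x ≠ u := (mem_LL.1 hx).1
  have hdis : Disjoint (HH u y \ W) ((LL u y).erase x) := by
    rw [Finset.disjoint_left]
    intro w h1 h2
    exact (Finset.disjoint_left.1 (disj_LH u y)) (Finset.mem_of_mem_erase h2)
      (Finset.mem_sdiff.1 h1).1
  have hWc : W.card ≤ (HH u y).card := Finset.card_le_card hW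
  have hPc : (HH u y \ W).card = (HH u y).card - W.card := Finset.card_sdiff_of_subset hW
  have hNc : ((LL u y).erase x).card = (LL u y).card - 1 := Finset.card_erase_of_mem hx
  have hLpos : 1 ≤ (LL u y).card := Finset.card_pos.2 ⟨x, hx⟩
  have hPN : ((HH u y \ W) ∪ (LL u y).erase x).card = (HH u y).card - W.card + ((LL u y).card - 1) := by
    rw [Finset.card_union_of_disjoint hdis, hPc, hNc]
  have hQle : Q.card ≤ ((HH u y \ W) ∪ (LL u y).erase x).card := Finset.card_le_card hQ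
  have hXc : (((HH u y \ W) ∪ (LL u y).erase x) \ Q).card =
      ((HH u y).card - W.card + ((LL u y).card - 1)) - Q.card := by
    rw [Finset.card_sdiff_of_subset hQ, hPN]
  set X := ((HH u y \ W) ∪ (LL u y).erase x) \ Q with hX
  have hXmem : ∀ w ∈ X, w ≠ u ∧ w ≠ x ∧ w ∉ W := by
    intro w hw
    rw [hX, Finset.mem_sdiff, Finset.mem_union] at hw
    rcases hw.1 with h1 | h1
    · rw [Finset.mem_sdiff] at h1
      refine ⟨(mem_HH.1 h1.1).1, ?_, h1.2⟩
      rintro rfl
      exact (Finset.disjoint_left.1 (disj_LH u y)) hx h1.1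
    · have h2 := Finset.mem_erase.1 h1
      refine ⟨(mem_LL.1 h2.2).1, h2.1, fun h3 => ?_⟩
      exact (Finset.disjoint_left.1 (disj_LH u y)) h2.2 (hW h3)
  have hxW : x ∉ W := fun h1 => (Finset.disjoint_left.1 (disj_LH u y)) hx (hW h1)
  have huW : u ∉ W := fun h1 => (mem_HH.1 (hW h1)).1 rfl
  -- the sum over X
  have hsumX : ∑ w ∈ X, y w = ∑ w ∈ HH u y \ W, y w + ∑ w ∈ (LL u y).erase x, y w - ∑ w ∈ Q, y w := by
    have h1 := Finset.sum_sdiff (f := y) hQ
    rw [Finset.sum_union hdis] at h1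
    rw [hX]
    linarith
  have hP1 : ∑ w ∈ HH u y \ W, y w = (exH u y - ∑ w ∈ W, (y w - 1)) + ((HH u y).card - W.card) := by
    have h1 := exH_split u y W hW
    rw [Finset.sum_sub_distrib] at h1
    have h2 : ∑ _w ∈ HH u y \ W, (1 : ℤ) = (HH u y).card - W.card := by
      rw [Finset.sum_const, hPc, nsmul_eq_mul, mul_one, Nat.cast_sub hWc]
    rw [h2] at h1
    linarith
  have hN1 : ∑ w ∈ (LL u y).erase x, y w = - (exL u y + y x) := by
    have h1 := exL_split u y hx
    rw [Finset.sum_neg_distrib] at h1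
    linarith
  have hW1 : ∑ w ∈ W, (1 - t w) = W.card - ∑ w ∈ W, t w := by
    rw [Finset.sum_sub_distrib]
    simp
  have hcz : ((LL u y).card : ℤ) + (HH u y).card + 1 = m + s := by exact_mod_cast hcard
  have hτ : τ = y x + ∑ w ∈ X, y w + ∑ w ∈ W, t w := by
    rw [hsumX, hP1, hN1, hQs, hW1]
    unfold lo
    linarith
  have hzero : ((τ : ℤ) : ZMod m) = 0 := (ZMod.intCast_zmod_eq_zero_iff_dvd τ m).2 hdvd
  rw [hτ] at hzero
  push_cast at hzero
  have e1 : ((y x : ℤ) : ZMod m) = c u x := h.cast x hxu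
  have e2 : ∑ w ∈ X, ((y w : ℤ) : ZMod m) = ∑ w ∈ X, c u w :=
    Finset.sum_congr rfl (fun w hw => h.cast w (hXmem w hw).1)
  have e3 : ∑ w ∈ W, ((t w : ℤ) : ZMod m) = ∑ w ∈ W, c x w :=
    Finset.sum_congr rfl (fun w hw => ht w hw)
  rw [e1, e2, e3] at hzero
  refine hz u x (Ne.symm hxu) X W ?_ ?_ ?_ huW hxW ?_ hzero
  · rw [Finset.disjoint_left]
    intro w hw
    exact (hXmem w hw).2.2
  · exact fun h1 => (hXmem u h1).1 rfl
  · exact fun h1 => (hXmem x h1).2.1 rfl
  · rw [hXc]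
    rw [hPN] at hQle
    omega

theorem fam [NeZero m] {c : V → V → ZMod m} (hsym : ∀ x w, c x w = c w x) (hz : ZSF m c) {u : V}
    {y : V → ℤ} (h : SL c u y) {s : ℕ} (hV : Fintype.card V = m + s) (hL : exL u y + 2 ≤ s)
    (hH : exH u y + 2 ≤ s) {x : V} (hx : x ∈ LL u y) (W : Finset V) (hW : W ⊆ HH u y)
    (hWc : W.card + (LL u y).card ≤ m) (t : V → ℤ) (ht : ∀ w ∈ W, (t w : ZMod m) = c x w) (τ : ℤ)
    (h1 : lo m u y - ∑ w ∈ W, (1 - t w) ≤ τ)
    (h2 : τ ≤ lo m u y - ∑ w ∈ W, (1 - t w) + (s - 1) + (exL u y + y x) +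
      (exH u y - ∑ w ∈ W, (y w - 1))) : ¬ (m : ℤ) ∣ τ := by
  have hL0 := exL_nonneg u y
  have hH0 := exH_nonneg u y
  have hs2 : 2 ≤ s := by omega
  have hcard := card_LH hV (by omega) u y
  have hHle := exH_le h hV hL
  have hWn := sumHW_nonneg u y W hW
  have hyx : y x ≤ 0 := (mem_LL.1 hx).2
  have hPc : (HH u y \ W).card = (HH u y).card - W.card := Finset.card_sdiff_of_subset hW
  have hNc : ((LL u y).erase x).card = (LL u y).card - 1 := Finset.card_erase_of_mem hx
  have hdis : Disjoint (HH u y \ W) ((LL u y).erase x) := by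
    rw [Finset.disjoint_left]
    intro w h3 h4
    exact (Finset.disjoint_left.1 (disj_LH u y)) (Finset.mem_of_mem_erase h4)
      (Finset.mem_sdiff.1 h3).1
  have hWle : W.card ≤ (HH u y).card := Finset.card_le_card hW
  have hq : ((s - 1 : ℕ) : ℤ) = (s : ℤ) - 1 := by push_cast [show 1 ≤ s by omega]; ring
  have eB := exH_split u y W hW
  have eK := exL_split u y hx
  obtain ⟨Q, hQ, hQc, hQs⟩ := gf y (s - 1) (by omega) (HH u y \ W) ((LL u y).erase x) hdis
    (fun w hw => (mem_HH.1 (Finset.mem_sdiff.1 hw).1).2)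
    (fun w hw => (mem_LL.1 (Finset.mem_of_mem_erase hw)).2)
    (by rw [hPc]; omega) (by rw [hNc]; omega)
    (by rw [eB, hq]; linarith) (by rw [eK, hq]; linarith)
    (lo m u y - ∑ w ∈ W, (1 - t w) + (s - 1) + (exH u y - ∑ w ∈ W, (y w - 1)) - τ)
    (by rw [eK]; linarith) (by rw [eB, hq]; linarith)
  exact core hz h hcard hx W hW t ht τ Q hQ (by omega) hQs

theorem fam2 [NeZero m] {c : V → V → ZMod m} (hsym : ∀ x w, c x w = c w x) (hz : ZSF m c) {u : V}
    {y : V → ℤ} (h : SL c u y) {s : ℕ} (hV : Fintype.card V = m + s) (hL : exL u y = 0)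
    (hH : exH u y + 3 ≤ s) {x : V} (hx : x ∈ LL u y) (W : Finset V) (hW : W ⊆ HH u y)
    (hWc : W.card + (LL u y).card = m + 1) (t : V → ℤ) (ht : ∀ w ∈ W, (t w : ZMod m) = c x w)
    (τ : ℤ) (h1 : lo m u y - ∑ w ∈ W, (1 - t w) + 1 ≤ τ)
    (h2 : τ ≤ lo m u y - ∑ w ∈ W, (1 - t w) + (s - 1)) : ¬ (m : ℤ) ∣ τ := by
  have hH0 := exH_nonneg u y
  have hs3 : 3 ≤ s := by omega
  have hcard := card_LH hV (by omega) u y
  have hHle := exH_le h hV (by omega)
  have hWn := sumHW_nonneg u y W hW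
  have hPc : (HH u y \ W).card = (HH u y).card - W.card := Finset.card_sdiff_of_subset hW
  have hNc : ((LL u y).erase x).card = (LL u y).card - 1 := Finset.card_erase_of_mem hx
  have hWle : W.card ≤ (HH u y).card := Finset.card_le_card hW
  -- all low values are zero
  have hzero : ∀ w ∈ LL u y, y w = 0 := by
    intro w hw
    have h3 : - y w ≤ exL u y :=
      Finset.single_le_sum (f := fun w => - y w)
        (fun v hv => by have := (mem_LL.1 hv).2; omega) hw
    have h4 := (mem_LL.1 hw).2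
    omega
  have hx0 : y x = 0 := hzero x hx
  obtain ⟨n₀, hn₀⟩ : ((LL u y).erase x).Nonempty := by
    rw [← Finset.card_pos, hNc]
    omega
  have hN2 : (((LL u y).erase x).erase n₀).card = (LL u y).card - 1 - 1 := by
    rw [Finset.card_erase_of_mem hn₀, hNc]
  have hn0z : y n₀ = 0 := hzero n₀ (Finset.mem_of_mem_erase hn₀)
  have hdis : Disjoint (HH u y \ W) (((LL u y).erase x).erase n₀) := by
    rw [Finset.disjoint_left]
    intro w h3 h4
    exact (Finset.disjoint_left.1 (disj_LH u y))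
      (Finset.mem_of_mem_erase (Finset.mem_of_mem_erase h4)) (Finset.mem_sdiff.1 h3).1
  have hq : ((s - 2 : ℕ) : ℤ) = (s : ℤ) - 2 := by push_cast [show 2 ≤ s by omega]; ring
  have eB := exH_split u y W hW
  have eK : ∑ w ∈ ((LL u y).erase x).erase n₀, (- y w) = 0 :=
    Finset.sum_eq_zero (fun w hw => by
      rw [hzero w (Finset.mem_of_mem_erase (Finset.mem_of_mem_erase hw)), neg_zero])
  obtain ⟨Q, hQ, hQc, hQs⟩ := gf y (s - 2) (by omega) (HH u y \ W) (((LL u y).erase x).erase n₀)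
    hdis (fun w hw => (mem_HH.1 (Finset.mem_sdiff.1 hw).1).2)
    (fun w hw => (mem_LL.1 (Finset.mem_of_mem_erase (Finset.mem_of_mem_erase hw))).2)
    (by rw [hPc]; omega) (by rw [hN2]; omega)
    (by rw [eB, hq]; linarith) (by rw [eK, hq]; linarith)
    (lo m u y - ∑ w ∈ W, (1 - t w) + (s - 1) + (exH u y - ∑ w ∈ W, (y w - 1)) - τ)
    (by
      rw [eK]
      have h5 := Finset.sum_nonneg (s := HH u y \ W) (f := fun w => y w - 1)
        (fun w hw => by have := (mem_HH.1 (Finset.mem_sdiff.1 hw).1).2; omega)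
      rw [eB] at h5
      linarith)
    (by rw [eB, hq]; linarith)
  have hnQ : n₀ ∉ Q := by
    intro h3
    have h4 := hQ h3
    rw [Finset.mem_union] at h4
    rcases h4 with h4 | h4
    · exact (Finset.disjoint_left.1 (disj_LH u y)) (Finset.mem_of_mem_erase hn₀)
        (Finset.mem_sdiff.1 h4).1
    · exact absurd rfl (Finset.mem_erase.1 h4).1
  refine core hz h hcard hx W hW t ht τ (insert n₀ Q) ?_ ?_ ?_
  · intro w hw
    rcases Finset.mem_insert.1 hw with rfl | hw
    · exact Finset.mem_union_right _ hn₀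
    · rcases Finset.mem_union.1 (hQ hw) with h4 | h4
      · exact Finset.mem_union_left _ h4
      · exact Finset.mem_union_right _ (Finset.mem_of_mem_erase h4)
  · rw [Finset.card_insert_of_notMem hnQ]
    omega
  · rw [Finset.sum_insert hnQ, hQs, hn0z, zero_add]

end E
end ZS44129
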