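import Mathlib
import Pool.Agent.Work.MP_44129c_co.E.Defs

/-!
# MP_44129c_co/E, Rep (size S): the lift `rep b z`

PROOF.  `val` of an element of `ZMod m` is in `[0, m - 1]` and casts back to the element.  `rep_unique`: two integers with
the same image in `ZMod m` differ by a multiple of `m`.
`rep_refl`: `1 - rep b z` lies in `[1 - (b + m - 1), 1 - b] = [b', b' + m - 1]` for `b' = 2 - b - m` and casts to `1 - z`.
-/

set_option autoImplicit false

namespace ZS44129
namespace E

variable {m : ℕ}

theorem rep_cast [NeZero m] (b : ℤ) (z : ZMod m) : ((rep b z : ℤ) : ZMod m) = z := by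
  unfold rep
  push_cast
  rw [ZMod.natCast_zmod_val]
  ring

theorem rep_ge (b : ℤ) (z : ZMod m) : b ≤ rep b z := by
  unfold rep
  omega

theorem rep_lt [NeZero m] (b : ℤ) (z : ZMod m) : rep b z + 1 ≤ b + m := by
  unfold rep
  have h := ZMod.val_lt (z - (b : ZMod m))
  omega

theorem rep_unique [NeZero m] (b : ℤ) (z : ZMod m) (j : ℤ) (hj : (j : ZMod m) = z) (h1 : b ≤ j)
    (h2 : j + 1 ≤ b + m) : rep b z = j := by
  have h3 : ((rep b z : ℤ) : ZMod m) = (j : ZMod m) := by rw [rep_cast, hj]
  have h4 : (m : ℤ) ∣ j - rep b z := (ZMod.intCast_eq_intCast_iff_dvd_sub _ _ _).1 h3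
  have h5 := rep_ge b z
  have h6 := rep_lt b z
  obtain ⟨k, hk⟩ := h4
  have hm : (0 : ℤ) < m := by
    have := NeZero.pos m
    exact_mod_cast this
  have h7 : k = 0 := by
    by_contra hne
    rcases lt_or_gt_of_ne hne with h8 | h8
    · have h9 : (m : ℤ) * k ≤ m * (-1) := mul_le_mul_of_nonneg_left (by omega) hm.le
      omega
    · have h9 : (m : ℤ) * 1 ≤ m * k := mul_le_mul_of_nonneg_left (by omega) hm.le
      omega
  rw [h7, mul_zero] at hk
  omega

theorem rep_refl [NeZero m] (b : ℤ) (z : ZMod m) : rep (2 - b - m) (1 - z) = 1 - rep b z := by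
  apply rep_unique
  · push_cast
    rw [rep_cast]
  · have := rep_lt b z
    omega
  · have := rep_ge b z
    omega

end E
end ZS44129
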