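import Mathlib
import Pool.Agent.Work.MP_44129c_co.E.Defs
import Pool.Agent.Work.MP_44129c_co.E.Rep

/-!
# MP_44129c_co/E, Refl (size S-M): the reflection `y ↦ 1 - y`, `c ↦ 1 - c`

PROOF.  `zsf_refl`: for a double star with `m` edges `∑ (1 - c) = m - ∑ c = - ∑ c` in `ZMod m` (copy the computation of
`zsf_affine` in PL/Good, or use it with `g = -1`, `β = -1`).
`sl_refl`: for `|A| = m`: `∑_A (1 - y) = m - ∑_A y ∈ [1, m - 1]`.
The rest is unfolding: `1 - y w ≤ 0 ↔ 1 ≤ y w`, `1 ≤ 1 - y w ↔ y w ≤ 0`.  `UU_refl`: `rep_refl` with `b = ap m u y - m`: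
`2 - b - m = 2 - ap m u y = 2 - lo m u (1 - y)`.
-/

set_option autoImplicit false

namespace ZS44129
namespace E

open Finset

variable {V : Type} [Fintype V] [DecidableEq V] {m : ℕ}

omit [Fintype V] in
theorem zsf_refl {c : V → V → ZMod m} (h : ZSF m c) : ZSF m (fun x w => 1 - c x w) := by
  intro u v huv X Y h1 h2 h3 h4 h5 h6 h7
  apply h u v huv X Y h1 h2 h3 h4 h5 h6
  simp only [Finset.sum_sub_distrib, Finset.sum_const] at h7
  have h9 : (m : ℕ) • (1 : ZMod m) = (X.card + Y.card + 1) • 1 :=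
    congrArg (fun k => k • (1 : ZMod m)) h6.symm
  have h10 : (m : ℕ) • (1 : ZMod m) = 0 := by rw [nsmul_eq_mul, ZMod.natCast_self, zero_mul]
  rw [h10, add_nsmul, add_nsmul, one_nsmul] at h9
  linear_combination -h9 - h7

theorem sl_refl {c : V → V → ZMod m} {u : V} {y : V → ℤ} (h : SL c u y) :
    SL (fun x w => 1 - c x w) u (fun w => 1 - y w) := by
  refine ⟨fun w hw => ?_, fun A hA hAm => ?_⟩
  · have h1 := h.cast w hw
    push_cast
    rw [h1]
  · have h1 := h.rng A hA hAm
    have h2 : ∑ w ∈ A, (1 - y w) = m - ∑ w ∈ A, y w := by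
      rw [Finset.sum_sub_distrib, Finset.sum_const, hAm, nsmul_eq_mul, mul_one]
    rw [h2]
    omega

theorem LL_refl (u : V) (y : V → ℤ) : LL u (fun w => 1 - y w) = HH u y := by
  unfold LL HH
  refine Finset.filter_congr (fun w _ => ?_)
  show 1 - y w ≤ 0 ↔ 1 ≤ y w
  constructor <;> intro h <;> omega

theorem HH_refl (u : V) (y : V → ℤ) : HH u (fun w => 1 - y w) = LL u y := by
  unfold LL HH
  refine Finset.filter_congr (fun w _ => ?_)
  show 1 ≤ 1 - y w ↔ y w ≤ 0
  constructor <;> intro h <;> omega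

theorem exL_refl (u : V) (y : V → ℤ) : exL u (fun w => 1 - y w) = exH u y := by
  unfold exL exH
  rw [LL_refl]
  refine Finset.sum_congr rfl (fun w _ => ?_)
  ring

theorem exH_refl (u : V) (y : V → ℤ) : exH u (fun w => 1 - y w) = exL u y := by
  unfold exL exH
  rw [HH_refl]
  refine Finset.sum_congr rfl (fun w _ => ?_)
  ring

theorem lo_refl (u : V) (y : V → ℤ) : lo m u (fun w => 1 - y w) = ap m u y := by
  unfold lo ap
  rw [LL_refl, exL_refl]

theorem ap_refl (u : V) (y : V → ℤ) : ap m u (fun w => 1 - y w) = lo m u y := by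
  unfold lo ap
  rw [HH_refl, exH_refl]

theorem UU_refl [NeZero m] (c : V → V → ZMod m) (u : V) (y : V → ℤ) (w : V) :
    UU (fun x w => 1 - c x w) u (fun w => 1 - y w) w = PP c u y w := by
  unfold UU PP
  rw [HH_refl, lo_refl]
  refine Finset.filter_congr (fun x _ => ?_)
  have h1 := rep_refl (ap m u y - m) (c w x)
  rw [show 2 - (ap m u y - m) - m = 2 - ap m u y by ring] at h1
  simp only [h1]
  constructor <;> intro h <;> omega

end E
end ZS44129
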