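import Mathlib
import Pool.Agent.Work.MP_44129c_co.E.Fam
import Pool.Agent.Work.MP_44129c_co.E.Refl

/-!
# MP_44129c_co/E, Window (size S-M)

PROOF of `window`.  `j₀ = rep (2 - lo) (c x w)`, so `2 - lo ≤ j₀ ≤ m + 1 - lo`.  Suppose `j₀ ≥ ap`.  Put `e = - y x + (y w - 1)`,
`len = s - 1 + exL + exH - e`.
`fam` with `W = {w}` (`1 + |LL| ≤ m` because `lo ≥ 1`, `exL ≥ 0`), `t = j₀`: no multiple of `m` in `[j₀ + lo - 1, j₀ + lo - 1 + len]`; as
`j₀ + lo - 1 ≤ m`, this gives `j₀ + lo - 1 + len < m`.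
The same for the reflected colouring, the low vertex `w` (of `1 - y`), `W = {x}`, `t = 1 - j₀`: no multiple of `m` in
`[ap - j₀, ap - j₀ + len]`; as `ap - j₀ ≤ 0`, `ap - j₀ + len < 0`.  Together `ap + lo + 2 len + 1 ≤ m`; with `lo_add_ap` this is
`s + exL + exH ≤ 2 e`.  But `e ≤ exL + exH` and `e ≤ s - 1`: contradiction.  (`- y x ≤ exL`, `y w - 1 ≤ exH` by
`Finset.single_le_sum`.)
`not_both`: `j ∈ [2 - lo, ap - 1]` is both `rep (2 - lo) (c x w)` (`ap - 1 ≤ 2 - lo + m - 1`: `lo_add_ap`) and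
`rep (ap - m) (c w x)` (`ap - m ≤ 2 - lo`), by `rep_unique`; so not `1 ≤ j` and `j ≤ 0`.
-/

set_option autoImplicit false

namespace ZS44129
namespace E

open Finset

variable {V : Type} [Fintype V] [DecidableEq V] {m : ℕ}

theorem window [NeZero m] {c : V → V → ZMod m} (hsym : ∀ x w, c x w = c w x) (hz : ZSF m c) {u : V}
    {y : V → ℤ} (h : SL c u y) {s : ℕ} (hV : Fintype.card V = m + s) (hL : exL u y + 2 ≤ s)
    (hH : exH u y + 2 ≤ s) {x w : V} (hx : x ∈ LL u y) (hw : w ∈ HH u y)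
    (he : - y x + (y w - 1) + 1 ≤ s) :
    ∃ j : ℤ, (j : ZMod m) = c x w ∧ 2 - lo m u y ≤ j ∧ j + 1 ≤ ap m u y := by
  have hL0 := exL_nonneg u y
  have hH0 := exH_nonneg u y
  have hs2 : 2 ≤ s := by omega
  have hlo := lo_pos h hV hH
  have hap := ap_pos h hV hL
  have hsum := lo_add_ap (m := m) hV (by omega) u y
  set j := rep (2 - lo m u y) (c x w) with hj
  have hjc : (j : ZMod m) = c x w := rep_cast _ _
  have hj1 : 2 - lo m u y ≤ j := rep_ge _ _
  have hj2 : j + 1 ≤ 2 - lo m u y + m := rep_lt _ _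
  refine ⟨j, hjc, hj1, ?_⟩
  by_contra hcon
  have hcon' : ap m u y ≤ j := by omega
  have hxL : - y x ≤ exL u y :=
    Finset.single_le_sum (f := fun w => - y w)
      (fun v hv => by have := (mem_LL.1 hv).2; omega) hx
  have hwH : y w - 1 ≤ exH u y :=
    Finset.single_le_sum (f := fun w => y w - 1)
      (fun v hv => by have := (mem_HH.1 hv).2; omega) hw
  have hcL := card_L_lt h
  have hcH := card_H_lt h
  have f1 : ∀ τ : ℤ, lo m u y - (1 - j) ≤ τ →
      τ ≤ lo m u y - (1 - j) + (s - 1) + (exL u y + y x) + (exH u y - (y w - 1)) →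
      ¬ (m : ℤ) ∣ τ := by
    intro τ h1 h2
    refine fam hsym hz h hV hL hH hx {w} (Finset.singleton_subset_iff.2 hw)
      (by rw [Finset.card_singleton]; omega) (fun _ => j) ?_ τ ?_ ?_
    · intro v hv
      rw [Finset.mem_singleton.1 hv]
      exact hjc
    · rw [Finset.sum_singleton]
      exact h1
    · rw [Finset.sum_singleton, Finset.sum_singleton]
      exact h2
  have hz' := zsf_refl hz
  have h' := sl_refl h
  have f2 : ∀ τ : ℤ, ap m u y - j ≤ τ →
      τ ≤ ap m u y - j + (s - 1) + (exH u y + (1 - y w)) + (exL u y - ((1 - y x) - 1)) →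
      ¬ (m : ℤ) ∣ τ := by
    intro τ h1 h2
    refine fam (c := fun x w => 1 - c x w) (y := fun w => 1 - y w) (fun a b => by rw [hsym a b]) hz' h' hV
      (by rw [exL_refl]; exact hH) (by rw [exH_refl]; exact hL) (x := w)
      (by rw [LL_refl]; exact hw) {x} (by rw [HH_refl]; exact Finset.singleton_subset_iff.2 hx)
      (by rw [Finset.card_singleton, LL_refl]; omega) (fun _ => 1 - j) ?_ τ ?_ ?_
    · intro v hv
      rw [Finset.mem_singleton.1 hv]
      push_cast
      rw [hjc, hsym x w]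
    · rw [Finset.sum_singleton, lo_refl]
      linarith
    · rw [Finset.sum_singleton, Finset.sum_singleton, lo_refl, exL_refl, exH_refl]
      linarith
  have g1 : lo m u y - (1 - j) + (s - 1) + (exL u y + y x) + (exH u y - (y w - 1)) < m := by
    by_contra hge
    exact f1 m (by omega) (by omega) (dvd_refl _)
  have g2 : ap m u y - j + (s - 1) + (exH u y + (1 - y w)) + (exL u y - ((1 - y x) - 1)) < 0 := by
    by_contra hge
    exact f2 0 (by omega) (by omega) (dvd_zero _)
  omega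

theorem not_both [NeZero m] {c : V → V → ZMod m} (hsym : ∀ x w, c x w = c w x) (hz : ZSF m c)
    {u : V} {y : V → ℤ} (h : SL c u y) {s : ℕ} (hV : Fintype.card V = m + s)
    (hL : exL u y + 2 ≤ s) (hH : exH u y + 2 ≤ s) {x w : V} (hx : x ∈ LL u y) (hw : w ∈ HH u y)
    (he : - y x + (y w - 1) + 1 ≤ s) (h1 : w ∈ UU c u y x) (h2 : x ∈ PP c u y w) : False := by
  obtain ⟨j, hjc, hj1, hj2⟩ := window hsym hz h hV hL hH hx hw he
  have hL0 := exL_nonneg u y
  have hH0 := exH_nonneg u y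
  have hsum := lo_add_ap (m := m) hV (by omega) u y
  have e1 : rep (2 - lo m u y) (c x w) = j :=
    rep_unique _ _ j hjc hj1 (by omega)
  have e2 : rep (ap m u y - m) (c w x) = j :=
    rep_unique _ _ j (by rw [hjc, hsym x w]) (by omega) (by omega)
  have h3 := (Finset.mem_filter.1 h1).2
  have h4 := (Finset.mem_filter.1 h2).2
  rw [e1] at h3
  rw [e2] at h4
  omega

end E
end ZS44129
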