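import Mathlib
import Pool.Agent.Work.MP_44129c_co.E.Window

/-!
# MP_44129c_co/E, Dc (size S-M): double counting of the low-high edges

PROOF of `dc`.  `∑_x |UU_x| + ∑_w |PP_w| = #{(x,w) : w ∈ UU_x} + #{(x,w) : x ∈ PP_w}` over `(x,w) ∈ LL × HH`; this is the cardinality
of the union plus that of the intersection.  By `not_both` a pair in the intersection has `s ≤ - y x + (y w - 1)`, and then
`- y x ≥ 2` and `y w - 1 ≥ 2` (`- y x ≤ exL ≤ s - 2`, `y w - 1 ≤ exH ≤ s - 2`).  `2 #{x ∈ LL : - y x ≥ 2} ≤ exL`,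
`2 #{w ∈ HH : y w - 1 ≥ 2} ≤ exH`, so four times the number of these pairs is `≤ exL exH`.
`dc0`: if `exL + exH + 1 ≤ s` there are no such pairs.
-/

set_option autoImplicit false

namespace ZS44129
namespace E

open Finset

variable {V : Type} [Fintype V] [DecidableEq V] {m : ℕ}

private def PA (c : V → V → ZMod m) (u : V) (y : V → ℤ) : Finset (V × V) :=
  (LL u y ×ˢ HH u y).filter (fun p => p.2 ∈ UU c u y p.1)

private def PB (c : V → V → ZMod m) (u : V) (y : V → ℤ) : Finset (V × V) :=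
  (LL u y ×ˢ HH u y).filter (fun p => p.1 ∈ PP c u y p.2)

private lemma card_PA (c : V → V → ZMod m) (u : V) (y : V → ℤ) :
    ((PA c u y).card : ℤ) = ∑ x ∈ LL u y, ((UU c u y x).card : ℤ) := by
  unfold PA
  rw [Finset.card_filter, Finset.sum_product]
  push_cast
  refine Finset.sum_congr rfl fun x _ => ?_
  rw [← Finset.sum_filter, Finset.sum_const, nsmul_eq_mul, mul_one]
  congr 2
  ext w
  simp only [Finset.mem_filter]
  constructor
  · exact fun hh => hh.2
  · exact fun hh => ⟨(Finset.mem_filter.1 hh).1, hh⟩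

private lemma card_PB (c : V → V → ZMod m) (u : V) (y : V → ℤ) :
    ((PB c u y).card : ℤ) = ∑ w ∈ HH u y, ((PP c u y w).card : ℤ) := by
  unfold PB
  rw [Finset.card_filter, Finset.sum_product_right]
  push_cast
  refine Finset.sum_congr rfl fun w _ => ?_
  rw [← Finset.sum_filter, Finset.sum_const, nsmul_eq_mul, mul_one]
  congr 2
  ext x
  simp only [Finset.mem_filter]
  constructor
  · exact fun hh => hh.2
  · exact fun hh => ⟨(Finset.mem_filter.1 hh).1, hh⟩

private lemma card_sum (c : V → V → ZMod m) (u : V) (y : V → ℤ) :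
    ∑ x ∈ LL u y, ((UU c u y x).card : ℤ) + ∑ w ∈ HH u y, ((PP c u y w).card : ℤ) ≤
      ((LL u y).card * (HH u y).card : ℤ) + ((PA c u y ∩ PB c u y).card : ℤ) := by
  rw [← card_PA, ← card_PB]
  have h1 := Finset.card_union_add_card_inter (PA c u y) (PB c u y)
  have h2 : (PA c u y ∪ PB c u y).card ≤ (LL u y ×ˢ HH u y).card := by
    refine Finset.card_le_card ?_
    refine Finset.union_subset ?_ ?_
    · exact Finset.filter_subset _ _
    · exact Finset.filter_subset _ _
  rw [Finset.card_product] at h2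
  have h3 : ((PA c u y ∪ PB c u y).card : ℤ) ≤ ((LL u y).card * (HH u y).card : ℤ) := by
    exact_mod_cast h2
  have h4 : ((PA c u y ∪ PB c u y).card : ℤ) + ((PA c u y ∩ PB c u y).card : ℤ) =
      ((PA c u y).card : ℤ) + ((PB c u y).card : ℤ) := by
    exact_mod_cast h1
  linarith

private lemma inter_spec [NeZero m] {c : V → V → ZMod m} (hsym : ∀ x w, c x w = c w x)
    (hz : ZSF m c) {u : V}
    {y : V → ℤ} (h : SL c u y) {s : ℕ} (hV : Fintype.card V = m + s) (hL : exL u y + 2 ≤ s)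
    (hH : exH u y + 2 ≤ s) {p : V × V} (hp : p ∈ PA c u y ∩ PB c u y) :
    p.1 ∈ LL u y ∧ p.2 ∈ HH u y ∧ (s : ℤ) ≤ - y p.1 + (y p.2 - 1) := by
  rw [Finset.mem_inter] at hp
  obtain ⟨hA, hB⟩ := hp
  have hA' := Finset.mem_filter.1 hA
  have hB' := Finset.mem_filter.1 hB
  have hm := Finset.mem_product.1 hA'.1
  refine ⟨hm.1, hm.2, ?_⟩
  by_contra hcon
  exact not_both hsym hz h hV hL hH hm.1 hm.2 (by omega) hA'.2 hB'.2

private lemma xL_le {u : V} {y : V → ℤ} {x : V} (hx : x ∈ LL u y) : - y x ≤ exL u y :=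
  Finset.single_le_sum (f := fun w => - y w)
    (fun v hv => by have := (mem_LL.1 hv).2; omega) hx

private lemma wH_le {u : V} {y : V → ℤ} {w : V} (hw : w ∈ HH u y) : y w - 1 ≤ exH u y :=
  Finset.single_le_sum (f := fun w => y w - 1)
    (fun v hv => by have := (mem_HH.1 hv).2; omega) hw

private lemma twoL (u : V) (y : V → ℤ) :
    2 * (((LL u y).filter (fun x => 2 ≤ - y x)).card : ℤ) ≤ exL u y := by
  unfold exL
  rw [mul_comm, ← nsmul_eq_mul, ← Finset.sum_const]
  rw [Finset.sum_filter]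
  refine Finset.sum_le_sum fun x hx => ?_
  have := (mem_LL.1 hx).2
  split_ifs with h2
  · exact h2
  · omega

private lemma twoH (u : V) (y : V → ℤ) :
    2 * (((HH u y).filter (fun w => 2 ≤ y w - 1)).card : ℤ) ≤ exH u y := by
  unfold exH
  rw [mul_comm, ← nsmul_eq_mul, ← Finset.sum_const]
  rw [Finset.sum_filter]
  refine Finset.sum_le_sum fun w hw => ?_
  have := (mem_HH.1 hw).2
  split_ifs with h2
  · exact h2
  · omega

theorem dc [NeZero m] {c : V → V → ZMod m} (hsym : ∀ x w, c x w = c w x) (hz : ZSF m c) {u : V}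
    {y : V → ℤ} (h : SL c u y) {s : ℕ} (hV : Fintype.card V = m + s) (hL : exL u y + 2 ≤ s)
    (hH : exH u y + 2 ≤ s) :
    4 * (∑ x ∈ LL u y, ((UU c u y x).card : ℤ) + ∑ w ∈ HH u y, ((PP c u y w).card : ℤ)) ≤
      4 * ((LL u y).card * (HH u y).card : ℤ) + exL u y * exH u y := by
  have h0 := card_sum c u y
  have hsub : PA c u y ∩ PB c u y ⊆
      (LL u y).filter (fun x => 2 ≤ - y x) ×ˢ (HH u y).filter (fun w => 2 ≤ y w - 1) := by
    intro p hp
    obtain ⟨h1, h2, h3⟩ := inter_spec hsym hz h hV hL hH hp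
    have h4 := xL_le h1
    have h5 := wH_le h2
    rw [Finset.mem_product, Finset.mem_filter, Finset.mem_filter]
    exact ⟨⟨h1, by omega⟩, ⟨h2, by omega⟩⟩
  have hc := Finset.card_le_card hsub
  rw [Finset.card_product] at hc
  have hc' : ((PA c u y ∩ PB c u y).card : ℤ) ≤
      (((LL u y).filter (fun x => 2 ≤ - y x)).card : ℤ) *
        (((HH u y).filter (fun w => 2 ≤ y w - 1)).card : ℤ) := by
    exact_mod_cast hc
  have hl := twoL u y
  have hh := twoH u y
  have hmul : (2 * (((LL u y).filter (fun x => 2 ≤ - y x)).card : ℤ)) *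
      (2 * (((HH u y).filter (fun w => 2 ≤ y w - 1)).card : ℤ)) ≤ exL u y * exH u y :=
    mul_le_mul hl hh (by positivity) (exL_nonneg u y)
  linarith

theorem dc0 [NeZero m] {c : V → V → ZMod m} (hsym : ∀ x w, c x w = c w x) (hz : ZSF m c) {u : V}
    {y : V → ℤ} (h : SL c u y) {s : ℕ} (hV : Fintype.card V = m + s) (hL : exL u y + 2 ≤ s)
    (hH : exH u y + 2 ≤ s) (he : exL u y + exH u y + 1 ≤ s) :
    ∑ x ∈ LL u y, ((UU c u y x).card : ℤ) + ∑ w ∈ HH u y, ((PP c u y w).card : ℤ) ≤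
      ((LL u y).card * (HH u y).card : ℤ) := by
  have h0 := card_sum c u y
  have hemp : PA c u y ∩ PB c u y = ∅ := by
    refine Finset.eq_empty_of_forall_notMem fun p hp => ?_
    obtain ⟨h1, h2, h3⟩ := inter_spec hsym hz h hV hL hH hp
    have h4 := xL_le h1
    have h5 := wH_le h2
    omega
  rw [hemp, Finset.card_empty] at h0
  simpa using h0

end E
end ZS44129
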