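import Mathlib
import Pool.Agent.Work.MP_44129c_co.E.Defs
import Pool.Agent.Work.MP_44129c_co.F.CubeMain
import Pool.Agent.Work.MP_44129c_co.PL.Comp

/-!
# MP_44129c_co/E, LemW (size M-L): the number lemma

PROOF.  Index type `ι ⊕ ℕ` (or `ι × Bool`, ...): the switches are `D w` (`w ∈ K`) and `s - 1` times `-1`, as elements of
`ZMod m`; they are nonzero (`1 ≤ D w ≤ l₀ - 1 < m`, `m ≥ 2`).  `I` = all of them, `|I| = l₀ + s - 1 ≥ 2 s + 1`,
`2 |I| ≥ 4 s + 2 ≥ m + 1`.  Let `S` be the set of subset sums.  `l₀ ∉ S`: `l₀ = ∑_W D - j` in `ZMod m` with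
`0 ≤ j ≤ s - 1` contradicts `hno`.  So `|S| ≤ m - 1`.
(A) `S` aperiodic: `cube_zmod` gives a unit `g` and integers `n` with `∑ |n| ≤ m - 2`, all `|n| ≥ 1`.  The `s - 1 ≥ 1`
copies of `-1` have the same `n = r` (two different ones differ by a multiple of `m`, so `|n| + |n'| ≥ m`).  So
`(s - 1)|r| + ∑_K |n| ≤ m - 2`.
 - `|r| ≥ 3`: `3 (s - 1) + l₀ ≤ m - 2 ≤ 4 s - 2`, `l₀ ≤ s + 1`: contradiction.
 - `|r| = 2`: `∑_K |n| ≤ m - 2 s ≤ 2 s < 2 l₀`, so some `w ∈ K` has `|n w| = 1`, `D w = ± g`, `2 D w = ± 2 g = ± 1` in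
   `ZMod m`; so `m ∣ 2 D w - 1` or `m ∣ 2 D w + 1`, and `2 D w + 1 ≥ m`, `2 l₀ ≥ m + 1`.  But
   `l₀ ≤ ∑_K |n| ≤ m - 2 s`: `2 m - 4 s ≥ m + 1`, `m ≥ 4 s + 1`: contradiction.
 - `|r| = 1`: `g = ± 1`; put `n' = ± n` with `D w = n' w` in `ZMod m`.  If `n' w ≠ D w` for some `w ∈ K` then
   `|n w| ≥ m - D w ≥ m - l₀ + 1` and the sum is `≥ (s - 1) + (l₀ - 1) + (m - l₀ + 1) > m - 2`.  So `n' = D` on `K`:
   `∑_K D + (s - 1) ≤ m - 2`.  The family `D w` (`w ∈ K`) together with `s - 1` ones has `l₀ + s - 1` elements and sum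
   `≤ m - 2 ≤ 2 (l₀ + s - 1) - 1`, so it is complete (`comp_full`): some `W ⊆ K` and `i ≤ s - 1` have
   `∑_W D + i = l₀ + s - 1` (`≤` total because `∑_K D ≥ l₀`).  With `j = s - 1 - i`: `l₀ - ∑_W D + j = 0`,
   contradiction to `hno`.
(B) `S` periodic: let `H` be the stabiliser of `S` (a subgroup, `H ≠ ⊥`).  `H ≠ ⊤` since `S` is not everything, so
`-1 ∉ H`.  `cube_periodic`: `(#{i : d i ∉ H} + 1)|H| ≤ |S| ≤ m - 1` and `#{i : d i ∉ H} = s - 1 + #{w ∈ K : D w ∉ H}`.  As
`|H|` divides `m`: `(s + 1 + #{w ∈ K : D w ∉ H}) |H| ≤ m`.  `|H| ≥ 4`: `4 (s + 1) ≤ m ≤ 4 s`: contradiction.  `|H| = 2`: `m = 2 M`,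
`H = {0, M}`, `D w ∈ H` iff `D w = M`.  `|H| = 3`: `m = 3 M`, `H = {0, M, 2 M}`, `D w ∈ H` iff `M ∣ D w`.
-/

set_option autoImplicit false

namespace ZS44129
namespace E

open Finset

private def lwd {ι : Type} (m s : ℕ) (D : ι → ℤ) : ι ⊕ Fin (s - 1) → ZMod m :=
  Sum.elim (fun w => (D w : ZMod m)) (fun _ => -1)

private theorem lw_sum {ι : Type} (m s : ℕ) (D : ι → ℤ) (T : Finset (ι ⊕ Fin (s - 1))) :
    ∑ i ∈ T, lwd m s D i = ((∑ w ∈ T.toLeft, D w - (T.toRight.card : ℤ) : ℤ) : ZMod m) := by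
  conv_lhs => rw [← Finset.toLeft_disjSum_toRight (u := T)]
  rw [Finset.sum_disjSum]
  simp [lwd, sub_eq_add_neg]

private theorem lw_left {ι : Type} {n : ℕ} {K : Finset ι} {T : Finset (ι ⊕ Fin n)}
    (hT : T ⊆ K.disjSum univ) : T.toLeft ⊆ K := by
  intro w hw
  have h1 := hT (Finset.mem_toLeft.1 hw)
  simpa using h1

private theorem lw_right {ι : Type} {n : ℕ} (T : Finset (ι ⊕ Fin n)) : T.toRight.card ≤ n := by
  have := Finset.card_le_univ T.toRight
  simpa using this

/-- the value `l₀` is not in the cube. -/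
private theorem lw_not {ι : Type} [DecidableEq ι] {m s l₀ : ℕ} [NeZero m] (hs : 2 ≤ s)
    (K : Finset ι) (D : ι → ℤ)
    (hno : ∀ W ⊆ K, ∀ j : ℤ, 0 ≤ j → j + 1 ≤ s → ¬ (m : ℤ) ∣ (l₀ - ∑ w ∈ W, D w + j)) :
    (l₀ : ZMod m) ∉ cube (lwd m s D) (K.disjSum univ) := by
  intro h
  obtain ⟨T, hT, hTs⟩ := mem_cube.1 h
  rw [lw_sum] at hTs
  have h1 := lw_right T
  refine hno T.toLeft (lw_left hT) (T.toRight.card : ℤ) (by positivity) (by omega) ?_
  have h2 : ((l₀ : ℤ) - ∑ w ∈ T.toLeft, D w + (T.toRight.card : ℤ) : ℤ) =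
      (l₀ : ℤ) - (∑ w ∈ T.toLeft, D w - (T.toRight.card : ℤ)) := by ring
  rw [h2, ← ZMod.intCast_zmod_eq_zero_iff_dvd]
  rw [Int.cast_sub, hTs]
  simp

/-- the final step: `∑_K D + (s - 1) ≤ m - 2` is impossible. -/
private theorem lw_fin {ι : Type} [DecidableEq ι] {m s l₀ : ℕ} (hs : 2 ≤ s) (hl : s + 2 ≤ l₀)
    (hm : m ≤ 4 * s) (K : Finset ι) (hK : K.card = l₀) (D : ι → ℤ)
    (hD : ∀ w ∈ K, 1 ≤ D w ∧ D w + 1 ≤ l₀)
    (hno : ∀ W ⊆ K, ∀ j : ℤ, 0 ≤ j → j + 1 ≤ s → ¬ (m : ℤ) ∣ (l₀ - ∑ w ∈ W, D w + j))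
    (hsum : ∑ w ∈ K, D w + s + 1 ≤ m) : False := by
  let μ : ι ⊕ Fin (s - 1) → ℕ := Sum.elim (fun w => (D w).toNat) (fun _ => 1)
  have hμ : ∀ T : Finset (ι ⊕ Fin (s - 1)), T ⊆ K.disjSum univ →
      ((∑ i ∈ T, μ i : ℕ) : ℤ) = ∑ w ∈ T.toLeft, D w + (T.toRight.card : ℤ) := by
    intro T hT
    have h1 : ∑ i ∈ T, μ i = ∑ w ∈ T.toLeft, (D w).toNat + T.toRight.card := by
      conv_lhs => rw [← Finset.toLeft_disjSum_toRight (u := T)]
      rw [Finset.sum_disjSum]
      simp [μ]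
    rw [h1]
    push_cast
    congr 1
    refine Finset.sum_congr rfl (fun w hw => ?_)
    have := (hD w (lw_left hT hw)).1
    omega
  have hI : (K.disjSum (univ : Finset (Fin (s - 1)))).card = l₀ + (s - 1) := by
    rw [Finset.card_disjSum, hK]
    simp
  have htot := hμ (K.disjSum univ) (Finset.Subset.refl _)
  have hL : (K.disjSum (univ : Finset (Fin (s - 1)))).toLeft = K := by simp
  have hR : (K.disjSum (univ : Finset (Fin (s - 1)))).toRight.card = s - 1 := by simp
  rw [hL, hR] at htot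
  have hge : (l₀ : ℤ) ≤ ∑ w ∈ K, D w := by
    have h1 : ∑ w ∈ K, (1 : ℤ) ≤ ∑ w ∈ K, D w := Finset.sum_le_sum (fun w hw => (hD w hw).1)
    rw [Finset.sum_const, hK] at h1
    simpa using h1
  obtain ⟨U, hU, hUs⟩ := comp_full (K.disjSum (univ : Finset (Fin (s - 1)))) μ
    (by
      intro x hx
      rcases x with w | i
      · have h1 : w ∈ K := by simpa using hx
        have := (hD w h1).1
        show 1 ≤ (D w).toNat
        omega
      · exact le_refl 1)
    (by
      rw [hI]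
      omega) (l₀ + (s - 1)) (by omega)
  have hU2 := hμ U hU
  rw [hUs] at hU2
  have h1 := lw_right U
  refine hno U.toLeft (lw_left hU) ((s : ℤ) - 1 - (U.toRight.card : ℤ)) (by omega) (by omega) ?_
  have h2 : (l₀ : ℤ) - ∑ w ∈ U.toLeft, D w + ((s : ℤ) - 1 - (U.toRight.card : ℤ)) = 0 := by
    omega
  rw [h2]
  exact dvd_zero _

private theorem lw_unit {m : ℕ} [NeZero m] (g : (ZMod m)ˣ) {k : ℤ} (h : k • (g : ZMod m) = 0) :
    (m : ℤ) ∣ k := by
  rw [← ZMod.intCast_zmod_eq_zero_iff_dvd]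
  rw [zsmul_eq_mul] at h
  exact (Units.mul_left_eq_zero g).1 h

/-- the aperiodic case is impossible. -/
private theorem lw_aper {ι : Type} [DecidableEq ι] {m s l₀ : ℕ} [NeZero m] (hs : 2 ≤ s)
    (hl : s + 2 ≤ l₀) (hlm : l₀ ≤ m) (hm : m ≤ 4 * s) (K : Finset ι) (hK : K.card = l₀) (D : ι → ℤ)
    (hD : ∀ w ∈ K, 1 ≤ D w ∧ D w + 1 ≤ l₀)
    (hno : ∀ W ⊆ K, ∀ j : ℤ, 0 ≤ j → j + 1 ≤ s → ¬ (m : ℤ) ∣ (l₀ - ∑ w ∈ W, D w + j))
    (hap : Aper (cube (lwd m s D) (K.disjSum univ))) : False := by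
  have hI : (K.disjSum (univ : Finset (Fin (s - 1)))).card = l₀ + (s - 1) := by
    rw [Finset.card_disjSum, hK]
    simp
  have hm4 : 4 ≤ m := by omega
  have hDz : ∀ w ∈ K, (D w : ZMod m) ≠ 0 := by
    intro w hw h
    rw [ZMod.intCast_zmod_eq_zero_iff_dvd] at h
    have h1 := hD w hw
    have := Int.le_of_dvd (by omega) h
    omega
  have h1z : (-1 : ZMod m) ≠ 0 := by
    intro h
    have h2 : ((-1 : ℤ) : ZMod m) = 0 := by push_cast; exact h
    rw [ZMod.intCast_zmod_eq_zero_iff_dvd] at h2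
    have := Int.le_of_dvd (by norm_num) ((dvd_neg).2 h2)
    omega
  obtain ⟨g, n, hn, hn1, hn2⟩ := cube_zmod (lwd m s D) (K.disjSum univ)
    (by
      intro x hx
      rcases x with w | i
      · exact hDz w (by simpa using hx)
      · exact h1z) hap (by rw [hI]; omega)
  have hnl : ∀ w ∈ K, (D w : ZMod m) = n (Sum.inl w) • (g : ZMod m) := by
    intro w hw
    exact hn (Sum.inl w) (by simpa using hw)
  have hnr : ∀ i : Fin (s - 1), (-1 : ZMod m) = n (Sum.inr i) • (g : ZMod m) := by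
    intro i
    exact hn (Sum.inr i) (by simp)
  have hpos : ∀ w ∈ K, 1 ≤ |n (Sum.inl w)| := by
    intro w hw
    refine Int.one_le_abs ?_
    intro h0
    have h1 := hnl w hw
    rw [h0, zero_smul] at h1
    exact hDz w hw h1
  rw [Finset.sum_disjSum] at hn1
  have hs1 : 0 < s - 1 := by omega
  set r : ℤ := n (Sum.inr ⟨0, hs1⟩) with hr
  have hsumr : ∀ i : Fin (s - 1), |n (Sum.inr i)| ≤ ∑ j : Fin (s - 1), |n (Sum.inr j)| := by
    intro i
    exact Finset.single_le_sum (f := fun j => |n (Sum.inr j)|) (fun j _ => abs_nonneg _)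
      (Finset.mem_univ i)
  have hsumK0 : 0 ≤ ∑ w ∈ K, |n (Sum.inl w)| := Finset.sum_nonneg (fun w _ => abs_nonneg _)
  have hall : ∀ i : Fin (s - 1), n (Sum.inr i) = r := by
    intro i
    by_contra hne
    have hi0 : i ≠ ⟨0, hs1⟩ := by
      rintro rfl
      exact hne rfl
    have h1 : (n (Sum.inr i) - r) • (g : ZMod m) = 0 := by
      rw [sub_smul, ← hnr i, hr, ← hnr ⟨0, hs1⟩, sub_self]
    have h2 := lw_unit g h1
    have h3 : (m : ℤ) ≤ |n (Sum.inr i) - r| :=
      Int.le_of_dvd (abs_pos.2 (sub_ne_zero.2 hne)) ((dvd_abs _ _).2 h2)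
    have h4 : |n (Sum.inr i) - r| ≤ |n (Sum.inr i)| + |r| := abs_sub _ _
    have h5 : |n (Sum.inr i)| + |r| ≤ ∑ j : Fin (s - 1), |n (Sum.inr j)| := by
      have h6 : ∑ j ∈ ({i, ⟨0, hs1⟩} : Finset (Fin (s - 1))), |n (Sum.inr j)| ≤
          ∑ j : Fin (s - 1), |n (Sum.inr j)| :=
        Finset.sum_le_sum_of_subset_of_nonneg (Finset.subset_univ _) (fun j _ _ => abs_nonneg _)
      rw [Finset.sum_pair hi0] at h6
      exact h6
    omega
  have hR : ∑ j : Fin (s - 1), |n (Sum.inr j)| = ((s : ℤ) - 1) * |r| := by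
    rw [Finset.sum_congr rfl (fun j _ => by rw [hall j]), Finset.sum_const]
    simp only [Finset.card_univ, Fintype.card_fin, nsmul_eq_mul]
    congr 1
    omega
  rw [hR] at hn1
  have hrg : r • (g : ZMod m) = -1 := (hnr ⟨0, hs1⟩).symm
  have hKge : (l₀ : ℤ) ≤ ∑ w ∈ K, |n (Sum.inl w)| := by
    have h1 : ∑ w ∈ K, (1 : ℤ) ≤ ∑ w ∈ K, |n (Sum.inl w)| :=
      Finset.sum_le_sum (fun w hw => hpos w hw)
    rw [Finset.sum_const, hK] at h1
    simpa using h1
  have hmain : ∑ w ∈ K, |n (Sum.inl w)| + ((s : ℤ) - 1) * |r| + 2 ≤ m := by omega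
  have hr1 : 1 ≤ |r| := by
    refine Int.one_le_abs ?_
    intro h0
    rw [h0, zero_smul] at hrg
    exact h1z hrg.symm
  rcases lt_or_ge |r| 3 with hr3 | hr3
  · rcases lt_or_ge |r| 2 with hr2 | hr2
    · -- |r| = 1
      have hr1' : |r| = 1 := by omega
      rw [hr1', mul_one] at hmain
      have hrr : r * r = 1 := by
        rcases (abs_eq (zero_le_one)).1 hr1' with h | h <;> rw [h] <;> norm_num
      have hg : (g : ZMod m) = ((-r : ℤ) : ZMod m) := by
        have h1 : (r * r) • (g : ZMod m) = -(r : ZMod m) := by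
          rw [mul_smul, hrg]
          simp
        rw [hrr, one_smul] at h1
        rw [h1]
        push_cast
        ring
      have hcong : ∀ w ∈ K, (m : ℤ) ∣ D w - (-r) * n (Sum.inl w) := by
        intro w hw
        rw [← ZMod.intCast_zmod_eq_zero_iff_dvd]
        push_cast
        rw [hnl w hw, hg, zsmul_eq_mul]
        push_cast
        ring
      have habs : ∀ w, |(-r) * n (Sum.inl w)| = |n (Sum.inl w)| := by
        intro w
        rw [abs_mul, abs_neg, hr1', one_mul]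
      have hDn : ∀ w ∈ K, (-r) * n (Sum.inl w) = D w := by
        intro w hw
        by_contra hne
        have h1 : (m : ℤ) ≤ |D w - (-r) * n (Sum.inl w)| :=
          Int.le_of_dvd (abs_pos.2 (sub_ne_zero.2 (Ne.symm hne))) ((dvd_abs _ _).2 (hcong w hw))
        have h2 : |D w - (-r) * n (Sum.inl w)| ≤ |D w| + |(-r) * n (Sum.inl w)| := abs_sub _ _
        rw [habs] at h2
        have h3 := hD w hw
        rw [abs_of_nonneg (by omega : 0 ≤ D w)] at h2
        have h4 : ((l₀ : ℤ) - 1) + |n (Sum.inl w)| ≤ ∑ w ∈ K, |n (Sum.inl w)| := by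
          rw [← Finset.add_sum_erase K (fun w => |n (Sum.inl w)|) hw]
          have h5 : ∑ x ∈ K.erase w, (1 : ℤ) ≤ ∑ x ∈ K.erase w, |n (Sum.inl x)| :=
            Finset.sum_le_sum (fun x hx => hpos x (Finset.mem_of_mem_erase hx))
          rw [Finset.sum_const, Finset.card_erase_of_mem hw, hK] at h5
          simp only [nsmul_eq_mul, mul_one] at h5
          omega
        omega
      refine lw_fin hs hl hm K hK D hD hno ?_
      have h6 : ∑ w ∈ K, D w = ∑ w ∈ K, |n (Sum.inl w)| := by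
        refine Finset.sum_congr rfl (fun w hw => ?_)
        rw [← habs w, hDn w hw, abs_of_nonneg]
        have := hD w hw
        omega
      rw [h6]
      omega
    · -- |r| = 2
      have hr2' : |r| = 2 := by omega
      rw [hr2'] at hmain
      obtain ⟨w, hw, hw1⟩ : ∃ w ∈ K, |n (Sum.inl w)| = 1 := by
        by_contra hcon
        push Not at hcon
        have h1 : ∑ w ∈ K, (2 : ℤ) ≤ ∑ w ∈ K, |n (Sum.inl w)| := by
          refine Finset.sum_le_sum (fun w hw => ?_)
          have h2 := hpos w hw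
          have h3 := hcon w hw
          omega
        rw [Finset.sum_const, hK] at h1
        simp only [nsmul_eq_mul] at h1
        omega
      have h2 := hD w hw
      have h3 : (m : ℤ) ∣ 2 * D w - 1 ∨ (m : ℤ) ∣ 2 * D w + 1 := by
        have e1 := hnl w hw
        have e2 : (2 : ZMod m) * g = -1 ∨ (2 : ZMod m) * g = 1 := by
          rcases (abs_eq (by norm_num : (0 : ℤ) ≤ 2)).1 hr2' with h | h
          · left
            rw [h, zsmul_eq_mul] at hrg
            exact_mod_cast hrg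
          · right
            rw [h, zsmul_eq_mul] at hrg
            push_cast at hrg
            linear_combination -hrg
        have e3 : (D w : ZMod m) = g ∨ (D w : ZMod m) = -g := by
          rcases (abs_eq (zero_le_one)).1 hw1 with h | h
          · left
            rw [e1, h, one_smul]
          · right
            rw [e1, h, neg_smul, one_smul]
        simp only [← ZMod.intCast_zmod_eq_zero_iff_dvd]
        push_cast
        rcases e3 with e3 | e3 <;> rcases e2 with e2 | e2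
        · right; rw [e3]; linear_combination e2
        · left; rw [e3]; linear_combination e2
        · left; rw [e3]; linear_combination -e2
        · right; rw [e3]; linear_combination -e2
      have h4 : (m : ℤ) ≤ 2 * D w + 1 := by
        rcases h3 with h3 | h3
        · have := Int.le_of_dvd (by omega) h3
          omega
        · exact Int.le_of_dvd (by omega) h3
      omega
  · have h1 : ((s : ℤ) - 1) * 3 ≤ ((s : ℤ) - 1) * |r| :=
      mul_le_mul_of_nonneg_left hr3 (by omega)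
    omega

theorem lemW {ι : Type} [DecidableEq ι] {m s l₀ : ℕ} [NeZero m] (hs : 2 ≤ s) (hl : s + 2 ≤ l₀)
    (hlm : l₀ ≤ m) (hm : m ≤ 4 * s) (K : Finset ι) (hK : K.card = l₀) (D : ι → ℤ)
    (hD : ∀ w ∈ K, 1 ≤ D w ∧ D w + 1 ≤ l₀)
    (hno : ∀ W ⊆ K, ∀ j : ℤ, 0 ≤ j → j + 1 ≤ s → ¬ (m : ℤ) ∣ (l₀ - ∑ w ∈ W, D w + j)) :
    (∃ M : ℕ, m = 2 * M ∧ (K.filter (fun w => D w ≠ M)).card + s + 1 ≤ M) ∨
      (∃ M : ℕ, m = 3 * M ∧ (K.filter (fun w => ¬ (M : ℤ) ∣ D w)).card + s + 1 ≤ M) := by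
  classical
  have hl0 := lw_not (m := m) hs K D hno
  have hI : (K.disjSum (univ : Finset (Fin (s - 1)))).card = l₀ + (s - 1) := by
    rw [Finset.card_disjSum, hK]
    simp
  have hcard : (cube (lwd m s D) (K.disjSum univ)).card < m := by
    have h1 := Finset.card_lt_univ_of_notMem hl0
    rwa [ZMod.card] at h1
  -- the stabiliser
  let S := cube (lwd m s D) (K.disjSum univ)
  let H : AddSubgroup (ZMod m) :=
    { carrier := {h | ∀ x ∈ S, x + h ∈ S}
      add_mem' := by
        intro a b ha hb x hx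
        rw [← add_assoc]
        exact hb _ (ha x hx)
      zero_mem' := by
        intro x hx
        rw [add_zero]
        exact hx
      neg_mem' := by
        intro a ha x hx
        have hinj : Function.Injective (fun y : ZMod m => y + a) := add_left_injective a
        have himg : S.image (fun y => y + a) = S := by
          refine Finset.eq_of_subset_of_card_le ?_ ?_
          · intro y hy
            obtain ⟨z, hz, rfl⟩ := Finset.mem_image.1 hy
            exact ha z hz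
          · rw [Finset.card_image_of_injective _ hinj]
        have hx' : x ∈ S.image (fun y => y + a) := by rw [himg]; exact hx
        obtain ⟨z, hz, hzx⟩ := Finset.mem_image.1 hx'
        have hzx' : z + a = x := hzx
        have : x + -a = z := by rw [← hzx', add_neg_cancel_right]
        rw [this]
        exact hz }
  have hHmem : ∀ h : ZMod m, h ∈ H ↔ ∀ x ∈ S, x + h ∈ S := fun h => Iff.rfl
  by_cases hap : Aper S
  · exact (lw_aper hs hl hlm hm K hK D hD hno hap).elim
  have hHbot : H ≠ ⊥ := by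
    intro hbot
    apply hap
    intro h hh
    have h1 : h ∈ H := hh
    rw [hbot, AddSubgroup.mem_bot] at h1
    exact h1
  have hH1 : (-1 : ZMod m) ∉ H := by
    intro h1
    apply hl0
    have h2 : (l₀ : ZMod m) ∈ H := by
      have h3 := H.zsmul_mem h1 (-(l₀ : ℤ))
      simpa using h3
    have h4 := h2 0 (zero_mem_cube _ _)
    rwa [zero_add] at h4
  have hper := cube_periodic (lwd m s D) (K.disjSum univ) H hHmem
  have hdvd : Nat.card H ∣ m := by
    have h1 := AddSubgroup.card_addSubgroup_dvd_card H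
    rwa [Nat.card_zmod] at h1
  obtain ⟨q, hq⟩ := hdvd
  have hHpos : 0 < Nat.card H := Nat.card_pos
  have hH2 : 2 ≤ Nat.card H := by
    by_contra hcon
    have h1 : Nat.card H = 1 := by omega
    exact hHbot (AddSubgroup.eq_bot_of_card_eq H h1)
  -- the count
  have hcnt : (K.filter (fun w => (D w : ZMod m) ∉ H)).card + (s - 1) ≤
      ((K.disjSum (univ : Finset (Fin (s - 1)))).filter (fun i => lwd m s D i ∉ H)).card := by
    have h1 : (K.filter (fun w => (D w : ZMod m) ∉ H)).disjSum (univ : Finset (Fin (s - 1))) ⊆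
        (K.disjSum (univ : Finset (Fin (s - 1)))).filter (fun i => lwd m s D i ∉ H) := by
      intro x hx
      rw [Finset.mem_filter]
      rcases x with w | i
      · have h2 : w ∈ K ∧ (D w : ZMod m) ∉ H := by simpa using hx
        exact ⟨by simpa using h2.1, h2.2⟩
      · exact ⟨by simp, hH1⟩
    have h2 := Finset.card_le_card h1
    rw [Finset.card_disjSum] at h2
    simpa using h2
  have hkey : (K.filter (fun w => (D w : ZMod m) ∉ H)).card + s + 1 ≤ q := by
    by_contra hcon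
    have h1 : q ≤ ((K.disjSum (univ : Finset (Fin (s - 1)))).filter
        (fun i => lwd m s D i ∉ H)).card + 1 := by omega
    have h2 := Nat.mul_le_mul_right (Nat.card H) h1
    have h3 : q * Nat.card H = m := by rw [mul_comm]; exact hq.symm
    omega
  have hmul : ∀ w ∈ K, (D w : ZMod m) ∈ H → (m : ℤ) ∣ (Nat.card H : ℤ) * D w := by
    intro w _ hw
    have h1 : Nat.card H • (⟨(D w : ZMod m), hw⟩ : H) = 0 := card_nsmul_eq_zero'
    have h2 : Nat.card H • (D w : ZMod m) = 0 := by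
      have h3 := congrArg (Subtype.val) h1
      rw [AddSubgroup.coe_nsmul] at h3
      exact h3
    rw [← ZMod.intCast_zmod_eq_zero_iff_dvd, Int.cast_mul, Int.cast_natCast, ← nsmul_eq_mul]
    exact h2
  have hle : Nat.card H ≤ 3 := by
    by_contra hcon
    have h1 : 4 * (s + 1) ≤ Nat.card H * q := Nat.mul_le_mul (by omega) (by omega)
    omega
  have hqpos : 0 < q := by omega
  rcases (by omega : Nat.card H = 2 ∨ Nat.card H = 3) with h2 | h3
  · left
    refine ⟨q, by rw [hq, h2], ?_⟩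
    refine le_trans (Nat.add_le_add_right (Nat.add_le_add_right (Finset.card_le_card ?_) _) _) hkey
    intro w hw
    rw [Finset.mem_filter] at hw ⊢
    refine ⟨hw.1, fun hH => hw.2 ?_⟩
    have h4 := hmul w hw.1 hH
    rw [h2, hq, h2] at h4
    push_cast at h4
    have h5 : (q : ℤ) ∣ D w := (mul_dvd_mul_iff_left (by norm_num)).1 h4
    obtain ⟨k, hk⟩ := h5
    have h6 := hD w hw.1
    have h7 : m = 2 * q := by rw [hq, h2]
    have hk1 : 1 ≤ k := by
      by_contra hc
      have : (q : ℤ) * k ≤ 0 := mul_nonpos_of_nonneg_of_nonpos (by omega) (by omega)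
      omega
    have hk2 : k ≤ 1 := by
      by_contra hc
      have : (q : ℤ) * 2 ≤ (q : ℤ) * k := mul_le_mul_of_nonneg_left (by omega) (by omega)
      omega
    have hk3 : k = 1 := le_antisymm hk2 hk1
    rw [hk, hk3, mul_one]
  · right
    refine ⟨q, by rw [hq, h3], ?_⟩
    refine le_trans (Nat.add_le_add_right (Nat.add_le_add_right (Finset.card_le_card ?_) _) _) hkey
    intro w hw
    rw [Finset.mem_filter] at hw ⊢
    refine ⟨hw.1, fun hH => hw.2 ?_⟩
    have h4 := hmul w hw.1 hH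
    rw [h3, hq, h3] at h4
    push_cast at h4
    exact (mul_dvd_mul_iff_left (by norm_num)).1 h4

end E
end ZS44129
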