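import Mathlib
import Pool.Agent.Work.MP_44129c_co.E.Fam
import Pool.Agent.Work.MP_44129c_co.E.Rep
import Pool.Agent.Work.MP_44129c_co.E.LemW

/-!
# MP_44129c_co/E, Perv (size M-L): the per-vertex lemma, weak form

For a low vertex `x` let `t w = rep (2 - lo) (c x w)`, `D w = 1 - t w ≤ lo - 1` (`rep_ge`); `KK` = the high `w` with `D w ≥ 1`, `UU` = the
others.  `card_UK`: `UU`, `KK` partition `HH`.
PROOF of `greedy` (`lo ≤ s + 1`).  Suppose `|KK| ≥ lo`.  Choose `W ⊆ KK` of minimal cardinality with `∑_W D ≥ lo` (a subset with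
`lo` elements has `∑ D ≥ lo`, so `|W| ≤ lo ≤ m - |LL|`).  `W ≠ ∅` (`lo ≥ 1`); removing an element gives `∑ ≤ lo - 1`, so
`lo ≤ ∑_W D ≤ 2 lo - 2`.  `fam` with `τ = 0`: `lo - ∑_W D ≤ 0 ≤ lo - ∑_W D + (s - 1)` (`lo - 2 ≤ s - 1`); the other terms of the upper bound
are `≥ 0` (`- y x ≤ exL`, `∑_W (y - 1) ≤ exH`).  But `m ∣ 0`: contradiction.
PROOF of `cubeK` (`lo ≥ s + 2`).  `l₀ = lo.toNat` (`lo ≤ m`).  Every `K₀ ⊆ KK` with `l₀` elements satisfies the hypotheses of `lemW`
(`hno`: `fam` with `W`, `τ = lo - ∑_W D + j`, `|W| ≤ lo ≤ m - |LL|`), so (no factor 3: `m ≤ 3 s + 2` or `¬ 3 ∣ m`; in the second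
alternative of `lemW`, `M ≥ s + 1`, `m = 3 M ≥ 3 s + 3`) `m = 2 M` and at most `M - s - 1` elements of `K₀` have `D ≠ M`.  If `KK` had
at least `M - s` elements with `D ≠ M` (`M - s ≤ s ≤ lo`), choose `K₀` containing `M - s` of them: contradiction.  So at most
`M - s - 1` elements of `KK` have `D ≠ M`.  As `|KK| ≥ lo ≥ s + 2 > M - s - 1` some `D w = M`, hence `M + 1 ≤ lo`,
i.e. `|LL| + exL + 1 ≤ M` (`lo = m - |LL| - exL`, `m = 2 M`).  `D w = M` means `c x w = 1 - M`.
-/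

set_option autoImplicit false

namespace ZS44129
namespace E

open Finset

variable {V : Type} [Fintype V] [DecidableEq V] {m : ℕ}

private theorem exists_sub {A : Finset V} {D : V → ℤ} {l : ℤ} (hD : ∀ w ∈ A, D w + 1 ≤ l) (hl : 1 ≤ l)
    (hA : l ≤ ∑ w ∈ A, D w) : ∃ W ⊆ A, l ≤ ∑ w ∈ W, D w ∧ ∑ w ∈ W, D w ≤ 2 * l - 2 := by
  induction A using Finset.induction_on with
  | empty => simp at hA; omega
  | insert a A ha ih =>
    by_cases h : l ≤ ∑ w ∈ A, D w
    · obtain ⟨W, hW, h1, h2⟩ := ih (fun w hw => hD w (Finset.mem_insert_of_mem hw)) h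
      exact ⟨W, hW.trans (Finset.subset_insert _ _), h1, h2⟩
    · refine ⟨insert a A, subset_rfl, hA, ?_⟩
      rw [Finset.sum_insert ha]
      have := hD a (Finset.mem_insert_self a A)
      omega

private theorem exL_ge {u : V} {y : V → ℤ} {x : V} (hx : x ∈ LL u y) : 0 ≤ exL u y + y x := by
  have h1 : - y x ≤ exL u y := by
    unfold exL
    exact Finset.single_le_sum (f := fun w => - y w) (fun w hw => by have := (mem_LL.1 hw).2; omega) hx
  linarith

private theorem exH_ge {u : V} {y : V → ℤ} {W : Finset V} (hW : W ⊆ HH u y) :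
    0 ≤ exH u y - ∑ w ∈ W, (y w - 1) := by
  have h1 : ∑ w ∈ W, (y w - 1) ≤ exH u y := by
    unfold exH
    exact Finset.sum_le_sum_of_subset_of_nonneg hW (fun w hw _ => by have := (mem_HH.1 hw).2; omega)
  linarith

private theorem KK_sub (c : V → V → ZMod m) (u : V) (y : V → ℤ) (x : V) : KK c u y x ⊆ HH u y :=
  Finset.filter_subset _ _

private theorem mem_KK {c : V → V → ZMod m} {u : V} {y : V → ℤ} {x w : V} :
    w ∈ KK c u y x ↔ w ∈ HH u y ∧ rep (2 - lo m u y) (c x w) ≤ 0 := by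
  simp [KK]

private theorem D_bd {c : V → V → ZMod m} {u : V} {y : V → ℤ} {x w : V} (hw : w ∈ KK c u y x) :
    1 ≤ 1 - rep (2 - lo m u y) (c x w) ∧ (1 - rep (2 - lo m u y) (c x w)) + 1 ≤ lo m u y := by
  have h1 := (mem_KK.1 hw).2
  have h2 := rep_ge (2 - lo m u y) (c x w)
  omega

private theorem no_div [NeZero m] {c : V → V → ZMod m} (hsym : ∀ x w, c x w = c w x) (hz : ZSF m c) {u : V}
    {y : V → ℤ} (h : SL c u y) {s : ℕ} (hV : Fintype.card V = m + s) (hL : exL u y + 2 ≤ s)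
    (hH : exH u y + 2 ≤ s) {x : V} (hx : x ∈ LL u y) {W : Finset V} (hW : W ⊆ KK c u y x)
    (hWc : (W.card : ℤ) ≤ lo m u y) (j : ℤ) (hj : 0 ≤ j) (hjs : j + 1 ≤ s) :
    ¬ (m : ℤ) ∣ (lo m u y - ∑ w ∈ W, (1 - rep (2 - lo m u y) (c x w)) + j) := by
  have hWH : W ⊆ HH u y := hW.trans (KK_sub c u y x)
  have h0 := exL_nonneg u y
  have hc : W.card + (LL u y).card ≤ m := by
    have : (W.card : ℤ) + (LL u y).card ≤ m := by
      unfold lo at hWc
      linarith
    exact_mod_cast this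
  have h1 := exL_ge hx
  have h2 := exH_ge hWH
  refine fam hsym hz h hV hL hH hx W hWH hc (fun w => rep (2 - lo m u y) (c x w))
    (fun w _ => rep_cast _ _) _ ?_ ?_
  · linarith
  · linarith

private theorem lem_first [NeZero m] {c : V → V → ZMod m} (hsym : ∀ x w, c x w = c w x) (hz : ZSF m c) {u : V}
    {y : V → ℤ} (h : SL c u y) {s : ℕ} (hV : Fintype.card V = m + s) (hL : exL u y + 2 ≤ s)
    (hH : exH u y + 2 ≤ s) (hm : m ≤ 4 * s) (h3 : m ≤ 3 * s + 2 ∨ ¬ 3 ∣ m) {x : V}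
    (hx : x ∈ LL u y) (hlo : (s : ℤ) + 2 ≤ lo m u y) {K₀ : Finset V} (hK : K₀ ⊆ KK c u y x)
    (hc : (K₀.card : ℤ) = lo m u y) :
    ∃ M : ℕ, m = 2 * M ∧
      (K₀.filter (fun w => 1 - rep (2 - lo m u y) (c x w) ≠ (M : ℤ))).card + s + 1 ≤ M := by
  have h0 := exL_nonneg u y
  have hlm : lo m u y ≤ m := by
    unfold lo
    have : (0 : ℤ) ≤ (LL u y).card := Int.natCast_nonneg _
    linarith
  have hs : 2 ≤ s := by
    have : (2 : ℤ) ≤ s := by linarith
    exact_mod_cast this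
  have hl2 : s + 2 ≤ K₀.card := by
    have : ((s + 2 : ℕ) : ℤ) ≤ (K₀.card : ℤ) := by push_cast; linarith
    exact_mod_cast this
  have hlm2 : K₀.card ≤ m := by
    have : (K₀.card : ℤ) ≤ m := by linarith
    exact_mod_cast this
  have key := lemW hs hl2 hlm2 hm K₀ rfl (fun w => 1 - rep (2 - lo m u y) (c x w)) ?_ ?_
  · rcases key with hM | hM
    · exact hM
    · exfalso
      obtain ⟨M, hM1, hM2⟩ := hM
      have hM3 : s + 1 ≤ M := by omega
      rcases h3 with h4 | h4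
      · omega
      · exact h4 ⟨M, hM1⟩
  · intro w hw
    have := D_bd (hK hw)
    constructor
    · exact this.1
    · rw [hc]; exact this.2
  · intro W hW j hj hjs
    have := no_div hsym hz h hV hL hH hx (hW.trans hK) (by
      rw [← hc]; exact_mod_cast Finset.card_le_card hW) j hj hjs
    rw [hc]
    exact this

theorem card_UK (c : V → V → ZMod m) (u : V) (y : V → ℤ) (x : V) :
    (UU c u y x).card + (KK c u y x).card = (HH u y).card := by
  have h := Finset.card_filter_add_card_filter_not (s := HH u y)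
    (fun w => 1 ≤ rep (2 - lo m u y) (c x w))
  have h2 : KK c u y x = (HH u y).filter (fun w => ¬ 1 ≤ rep (2 - lo m u y) (c x w)) := by
    unfold KK
    apply Finset.filter_congr
    intro w _
    omega
  rw [h2]
  exact h

theorem greedy [NeZero m] {c : V → V → ZMod m} (hsym : ∀ x w, c x w = c w x) (hz : ZSF m c) {u : V}
    {y : V → ℤ} (h : SL c u y) {s : ℕ} (hV : Fintype.card V = m + s) (hL : exL u y + 2 ≤ s)
    (hH : exH u y + 2 ≤ s) {x : V} (hx : x ∈ LL u y) (hlo : lo m u y ≤ s + 1) :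
    ((KK c u y x).card : ℤ) + 1 ≤ lo m u y := by
  by_contra hcon
  have hK : lo m u y ≤ (KK c u y x).card := by omega
  have hlo1 : 1 ≤ lo m u y := lo_pos h hV hH
  obtain ⟨A, hA, hAc⟩ := Finset.exists_subset_card_eq (s := KK c u y x) (n := (lo m u y).toNat)
    (by omega)
  have hAc' : (A.card : ℤ) = lo m u y := by omega
  have hsum : lo m u y ≤ ∑ w ∈ A, (1 - rep (2 - lo m u y) (c x w)) := by
    have h5 : ∑ w ∈ A, (1 : ℤ) ≤ ∑ w ∈ A, (1 - rep (2 - lo m u y) (c x w)) :=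
      Finset.sum_le_sum (fun w hw => (D_bd (hA hw)).1)
    rw [Finset.sum_const, nsmul_eq_mul, mul_one, hAc'] at h5
    exact h5
  obtain ⟨W, hWA, hW1, hW2⟩ := exists_sub (A := A) (D := fun w => 1 - rep (2 - lo m u y) (c x w))
    (l := lo m u y) (fun w hw => (D_bd (hA hw)).2) hlo1 hsum
  have hWK : W ⊆ KK c u y x := hWA.trans hA
  have hWc : (W.card : ℤ) ≤ lo m u y := by
    rw [← hAc']; exact_mod_cast Finset.card_le_card hWA
  have hno := no_div hsym hz h hV hL hH hx hWK hWc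
    (∑ w ∈ W, (1 - rep (2 - lo m u y) (c x w)) - lo m u y) (by simpa using hW1) (by

      linarith)
  apply hno
  have h6 : lo m u y - ∑ w ∈ W, (1 - rep (2 - lo m u y) (c x w)) +
      (∑ w ∈ W, (1 - rep (2 - lo m u y) (c x w)) - lo m u y) = 0 := by ring
  rw [h6]
  exact dvd_zero _

theorem cubeK [NeZero m] {c : V → V → ZMod m} (hsym : ∀ x w, c x w = c w x) (hz : ZSF m c) {u : V}
    {y : V → ℤ} (h : SL c u y) {s : ℕ} (hV : Fintype.card V = m + s) (hL : exL u y + 2 ≤ s)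
    (hH : exH u y + 2 ≤ s) (hm : m ≤ 4 * s) (h3 : m ≤ 3 * s + 2 ∨ ¬ 3 ∣ m) {x : V}
    (hx : x ∈ LL u y) (hlo : (s : ℤ) + 2 ≤ lo m u y)
    (hK : lo m u y ≤ ((KK c u y x).card : ℤ)) :
    ∃ M : ℕ, m = 2 * M ∧ ((LL u y).card : ℤ) + exL u y + 1 ≤ M ∧
      (KK c u y x).card + s + 1 ≤ M + ((KK c u y x).filter (fun w => c x w = 1 - M)).card := by
  have hlonn : 0 ≤ lo m u y := by
    have : (0 : ℤ) ≤ s := Int.natCast_nonneg _
    linarith
  obtain ⟨K₀, hK₀, hK₀c⟩ := Finset.exists_subset_card_eq (s := KK c u y x) (n := (lo m u y).toNat)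
    (by omega)
  have hK₀c' : (K₀.card : ℤ) = lo m u y := by omega
  obtain ⟨M, hM, hM1⟩ := lem_first hsym hz h hV hL hH hm h3 hx hlo hK₀ hK₀c'
  have hMs : s + 1 ≤ M := by omega
  have hM2 : M ≤ 2 * s := by omega
  have hall : ((KK c u y x).filter (fun w => 1 - rep (2 - lo m u y) (c x w) ≠ (M : ℤ))).card + s + 1 ≤ M := by
    by_contra hcon
    obtain ⟨B, hB, hBc⟩ := Finset.exists_subset_card_eq
      (s := (KK c u y x).filter (fun w => 1 - rep (2 - lo m u y) (c x w) ≠ (M : ℤ))) (n := M - s) (by omega)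
    obtain ⟨K₁, hBK, hK₁, hK₁c⟩ := Finset.exists_subsuperset_card_eq
      (hB.trans (Finset.filter_subset _ _)) (n := (lo m u y).toNat) (by omega) (by omega)
    have hK₁c' : (K₁.card : ℤ) = lo m u y := by omega
    obtain ⟨M', hM', hM1'⟩ := lem_first hsym hz h hV hL hH hm h3 hx hlo hK₁ hK₁c'
    have hMM : M' = M := by omega
    subst hMM
    have hle : B.card ≤ (K₁.filter (fun w => 1 - rep (2 - lo m u y) (c x w) ≠ (M' : ℤ))).card := by
      apply Finset.card_le_card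
      intro w hw
      rw [Finset.mem_filter]
      exact ⟨hBK hw, (Finset.mem_filter.1 (hB hw)).2⟩
    omega
  have hsplit := Finset.card_filter_add_card_filter_not (s := KK c u y x)
    (fun w => 1 - rep (2 - lo m u y) (c x w) = (M : ℤ))
  have hKs : s + 2 ≤ (KK c u y x).card := by
    have : ((s + 2 : ℕ) : ℤ) ≤ ((KK c u y x).card : ℤ) := by push_cast; linarith
    exact_mod_cast this
  have hpos : 0 < ((KK c u y x).filter (fun w => 1 - rep (2 - lo m u y) (c x w) = (M : ℤ))).card := by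
    have h9 : ((KK c u y x).filter (fun w => ¬ 1 - rep (2 - lo m u y) (c x w) = (M : ℤ))).card + s + 1 ≤ M := hall
    omega
  refine ⟨M, hM, ?_, ?_⟩
  · obtain ⟨w, hw⟩ := Finset.card_pos.1 hpos
    rw [Finset.mem_filter] at hw
    have h10 := (D_bd hw.1).2
    rw [hw.2] at h10
    have hmz : (m : ℤ) = 2 * M := by exact_mod_cast hM
    have h11 : lo m u y = m - (LL u y).card - exL u y := rfl
    linarith
  · have h12 : ((KK c u y x).filter (fun w => 1 - rep (2 - lo m u y) (c x w) = (M : ℤ))).card ≤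
        ((KK c u y x).filter (fun w => c x w = 1 - M)).card := by
      apply Finset.card_le_card
      intro w hw
      rw [Finset.mem_filter] at hw ⊢
      refine ⟨hw.1, ?_⟩
      have h13 := rep_cast (2 - lo m u y) (c x w)
      have h14 : rep (2 - lo m u y) (c x w) = 1 - (M : ℤ) := by linarith [hw.2]
      rw [h14] at h13
      rw [← h13]
      push_cast
      ring
    have h9 : ((KK c u y x).filter (fun w => ¬ 1 - rep (2 - lo m u y) (c x w) = (M : ℤ))).card + s + 1 ≤ M := hall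
    omega

end E
end ZS44129
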