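import Mathlib
import Pool.Agent.Work.MP_44129c_co.E.Perv
import Pool.Agent.Work.MP_44129c_co.E.Refl

/-!
# MP_44129c_co/E, Perv2 (size S-M): the per-vertex lemma

PROOF of `perv`.  If not the first alternative: `|UU| < s + exL`, so by `card_UK`, `|KK| ≥ |HH| - s - exL + 1 = lo`
(`lo = m - |LL| - exL`, `card_LH`).  `greedy` excludes `lo ≤ s + 1`, so `cubeK` applies; `|UU| = |HH| - |KK|`,
`|HH| = 2 M + s - 1 - |LL|`, so `|UU| + |Tw| ≥ |HH| - (M - s - 1) = M + 2 s - |LL|`, and `{w ∈ KK : c x w = 1 - M} ⊆ Tw`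
`= {w ∈ HH : c x w = 1 - M}`.
PROOF of `perv_greedy`: `greedy` and `card_UK`.
`pervH`: `perv` for the reflected colouring (`UU_refl`, `LL_refl`, ...); `1 - c w x = 1 - M` iff `c w x = M`.
`pervH_greedy`: `perv_greedy` for the reflected colouring.
-/

set_option autoImplicit false

namespace ZS44129
namespace E

open Finset

variable {V : Type} [Fintype V] [DecidableEq V] {m : ℕ}

theorem perv_greedy [NeZero m] {c : V → V → ZMod m} (hsym : ∀ x w, c x w = c w x) (hz : ZSF m c)
    {u : V} {y : V → ℤ} (h : SL c u y) {s : ℕ} (hV : Fintype.card V = m + s)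
    (hL : exL u y + 2 ≤ s) (hH : exH u y + 2 ≤ s) {x : V} (hx : x ∈ LL u y)
    (hlo : lo m u y ≤ s + 1) : s + exL u y ≤ ((UU c u y x).card : ℤ) := by
  have hs : 1 ≤ s := by
    have := exL_nonneg u y
    have h0 : (2 : ℤ) ≤ s := by linarith
    omega
  have h1 := greedy hsym hz h hV hL hH hx hlo
  have h2 : ((UU c u y x).card : ℤ) + (KK c u y x).card = (HH u y).card := by
    exact_mod_cast card_UK c u y x
  have h3 : ((LL u y).card : ℤ) + (HH u y).card + 1 = m + s := by
    exact_mod_cast card_LH hV hs u y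
  unfold lo at h1
  linarith

theorem perv [NeZero m] {c : V → V → ZMod m} (hsym : ∀ x w, c x w = c w x) (hz : ZSF m c) {u : V}
    {y : V → ℤ} (h : SL c u y) {s : ℕ} (hV : Fintype.card V = m + s) (hL : exL u y + 2 ≤ s)
    (hH : exH u y + 2 ≤ s) (hm : m ≤ 4 * s) (h3 : m ≤ 3 * s + 2 ∨ ¬ 3 ∣ m) {x : V}
    (hx : x ∈ LL u y) :
    s + exL u y ≤ ((UU c u y x).card : ℤ) ∨
      ∃ M : ℕ, m = 2 * M ∧ ((LL u y).card : ℤ) + exL u y + 1 ≤ M ∧
        M + 2 * s ≤ (UU c u y x).card + (LL u y).card +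
          ((HH u y).filter (fun w => c x w = 1 - M)).card := by
  by_cases hlt : s + exL u y ≤ ((UU c u y x).card : ℤ)
  · exact Or.inl hlt
  right
  have hs : 1 ≤ s := by
    have := exL_nonneg u y
    have h0 : (2 : ℤ) ≤ s := by linarith
    omega
  have h2 : ((UU c u y x).card : ℤ) + (KK c u y x).card = (HH u y).card := by
    exact_mod_cast card_UK c u y x
  have h3' : ((LL u y).card : ℤ) + (HH u y).card + 1 = m + s := by
    exact_mod_cast card_LH hV hs u y
  by_cases hlo : lo m u y ≤ s + 1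
  · exact absurd (perv_greedy hsym hz h hV hL hH hx hlo) hlt
  have hK : lo m u y ≤ ((KK c u y x).card : ℤ) := by
    have h4 : ((UU c u y x).card : ℤ) + 1 ≤ s + exL u y := by omega
    unfold lo
    linarith
  obtain ⟨M, hM1, hM2, hM3⟩ := cubeK hsym hz h hV hL hH hm h3 hx (by omega) hK
  refine ⟨M, hM1, hM2, ?_⟩
  have hsub : (KK c u y x).filter (fun w => c x w = 1 - M) ⊆
      (HH u y).filter (fun w => c x w = 1 - M) := by
    refine Finset.filter_subset_filter _ ?_
    unfold KK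
    exact Finset.filter_subset _ _
  have h5 := Finset.card_le_card hsub
  have h6 := card_UK c u y x
  have h7 := card_LH hV hs u y
  omega

theorem pervH_greedy [NeZero m] {c : V → V → ZMod m} (hsym : ∀ x w, c x w = c w x) (hz : ZSF m c)
    {u : V} {y : V → ℤ} (h : SL c u y) {s : ℕ} (hV : Fintype.card V = m + s)
    (hL : exL u y + 2 ≤ s) (hH : exH u y + 2 ≤ s) {w : V} (hw : w ∈ HH u y)
    (hap : ap m u y ≤ s + 1) : s + exH u y ≤ ((PP c u y w).card : ℤ) := by
  have h1 := perv_greedy (c := fun x w => 1 - c x w) (fun x w => by rw [hsym x w]) (zsf_refl hz)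
    (sl_refl h) hV (by rw [exL_refl]; exact hH) (by rw [exH_refl]; exact hL) (x := w)
    (by rw [LL_refl]; exact hw) (by rw [lo_refl]; exact hap)
  rw [exL_refl, UU_refl] at h1
  exact h1

theorem pervH [NeZero m] {c : V → V → ZMod m} (hsym : ∀ x w, c x w = c w x) (hz : ZSF m c) {u : V}
    {y : V → ℤ} (h : SL c u y) {s : ℕ} (hV : Fintype.card V = m + s) (hL : exL u y + 2 ≤ s)
    (hH : exH u y + 2 ≤ s) (hm : m ≤ 4 * s) (h3 : m ≤ 3 * s + 2 ∨ ¬ 3 ∣ m) {w : V}
    (hw : w ∈ HH u y) :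
    s + exH u y ≤ ((PP c u y w).card : ℤ) ∨
      ∃ M : ℕ, m = 2 * M ∧ ((HH u y).card : ℤ) + exH u y + 1 ≤ M ∧
        M + 2 * s ≤ (PP c u y w).card + (HH u y).card +
          ((LL u y).filter (fun x => c w x = M)).card := by
  have h1 := perv (c := fun x w => 1 - c x w) (fun x w => by rw [hsym x w]) (zsf_refl hz)
    (sl_refl h) hV (by rw [exL_refl]; exact hH) (by rw [exH_refl]; exact hL) hm h3 (x := w)
    (by rw [LL_refl]; exact hw)
  rw [exL_refl, UU_refl, LL_refl, HH_refl] at h1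
  rcases h1 with h1 | ⟨M, hM1, hM2, hM3⟩
  · exact Or.inl h1
  · refine Or.inr ⟨M, hM1, hM2, ?_⟩
    have h4 : (LL u y).filter (fun x => 1 - c w x = 1 - (M : ZMod m)) =
        (LL u y).filter (fun x => c w x = M) := by
      refine Finset.filter_congr (fun x _ => ?_)
      exact sub_right_inj
    rw [h4] at hM3
    exact hM3

end E
end ZS44129
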