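import Mathlib
import Pool.Agent.Work.MP_44129c_co.E.Perv2

/-!
# MP_44129c_co/E, TwB (size M-L): twisted edges, even `m = 2 M`

PROOF of `twb` (paper: helper54, section 2 (ii), reflected).  `lo ≤ m - |LL| = |HH| - s + 1 ≤ M - s ≤ s - 2` and
`exL + exH ≤ M - 1 - s ≤ s - 3` (`exL_le`).  Let `t w = rep (2 - lo) (c x w)`, `Tw = {w ∈ HH : c x w = M}`; for `w ∈ Tw`, `t w = M`
(`rep_unique`: `2 - lo ≤ M`, `M + 1 ≤ 2 - lo + m`), so `Tw ⊆ UU`, `Tw ∩ KK = ∅`.  If `Tw = ∅`: `perv_greedy`.  Suppose `Tw ≠ ∅` and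
`|UU| + 1 < s + exL + |Tw|`.  Let `Q = KK ∪ Tw`; `|Q| = |HH| - |UU| + |Tw| ≥ |HH| - s - exL + 2 = lo + 1`.
Put `v w = 1 - t w` on `KK` and `v w = 1` on `Tw`: `1 ≤ v w ≤ max (lo - 1) 1`.  Fix `w₀ ∈ Tw` and let `B₁ ⊆ Q \ {w₀}` be of minimal
cardinality with `∑ v ≥ lo` (`|Q \ {w₀}| ≥ lo`): `|B₁| ≤ lo`, `lo ≤ ∑_{B₁} v ≤ max (2 lo - 2) lo`.
Let `B = B₁` or `B = insert w₀ B₁`, such that `|B ∩ Tw| = 2 i` is even.  `lo ≤ v(B) ≤ max (2 lo - 2) lo + 1 ≤ lo + s - 1`.
Apply `fam` with `W = B`, the lifts `t` (`t w = M` on `Tw`) and `τ = m i`: `∑_B (1 - t w) = v(B) - M (2 i) = v(B) - m i`, so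
`lo - ∑_B (1 - t) = lo - v(B) + m i ≤ m i ≤ lo - v(B) + m i + (s - 1)`.  `|B| + |LL| ≤ m` if `|B| ≤ lo` or `exL ≥ 1`
(`|B| ≤ lo + 1 = m - |LL| - exL + 1`).  In the remaining case `|B| = lo + 1`, `exL = 0` use `fam2` (`exH + 3 ≤ s`), which needs
`v(B) ≥ lo + 1`: true since `v ≥ 1`.  Contradiction in both cases.
`twbH`: reflection.
-/

set_option autoImplicit false

namespace ZS44129
namespace E

open Finset

variable {V : Type} [Fintype V] [DecidableEq V] {m : ℕ}

private theorem pickB {V : Type} [DecidableEq V] (Q : Finset V) (v : V → ℤ) (l : ℤ) (hl : 1 ≤ l)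
    (hv1 : ∀ w ∈ Q, 1 ≤ v w) (hv2 : ∀ w ∈ Q, v w ≤ max (l - 1) 1) (hs : l ≤ Q.card) :
    ∃ B ⊆ Q, (B.card : ℤ) ≤ l ∧ l ≤ ∑ w ∈ B, v w ∧ ∑ w ∈ B, v w ≤ max (2 * l - 2) l := by
  have hne : (Q.powerset.filter (fun B => l ≤ ∑ w ∈ B, v w)).Nonempty := by
    refine ⟨Q, ?_⟩
    rw [mem_filter, mem_powerset]
    refine ⟨Finset.Subset.refl _, ?_⟩
    have h1 : (Q.card : ℤ) ≤ ∑ w ∈ Q, v w := by
      have h2 := Finset.card_nsmul_le_sum Q v 1 hv1
      simpa using h2
    linarith
  obtain ⟨B, hB, hmin⟩ := Finset.exists_min_image _ Finset.card hne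
  rw [mem_filter, mem_powerset] at hB
  have hBne : B.Nonempty := by
    rw [Finset.nonempty_iff_ne_empty]
    rintro rfl
    have h3 := hB.2
    rw [Finset.sum_empty] at h3
    omega
  obtain ⟨w, hw⟩ := hBne
  have hcard := Finset.card_erase_add_one hw
  have herase : ∑ z ∈ B.erase w, v z ≤ l - 1 := by
    by_contra hcon
    push Not at hcon
    have h4 := hmin (B.erase w) (by
      rw [mem_filter, mem_powerset]
      exact ⟨(Finset.erase_subset _ _).trans hB.1, by omega⟩)
    omega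
  have hsum := Finset.add_sum_erase B v hw
  have hc : ((B.erase w).card : ℤ) ≤ ∑ z ∈ B.erase w, v z := by
    have h5 := Finset.card_nsmul_le_sum (B.erase w) v 1
      (fun z hz => hv1 z (hB.1 (Finset.mem_of_mem_erase hz)))
    simpa using h5
  have hvw := hv2 w (hB.1 hw)
  refine ⟨B, hB.1, by omega, hB.2, ?_⟩
  omega

theorem twb [NeZero m] {c : V → V → ZMod m} (hsym : ∀ x w, c x w = c w x) (hz : ZSF m c) {u : V}
    {y : V → ℤ} (h : SL c u y) {s : ℕ} (hV : Fintype.card V = m + s) (hL : exL u y + 2 ≤ s)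
    (hH : exH u y + 2 ≤ s) {M : ℕ} (hM : m = 2 * M) (hm : m + 4 ≤ 4 * s)
    (hHM : ((HH u y).card : ℤ) + exH u y + 1 ≤ M) {x : V} (hx : x ∈ LL u y) :
    s + exL u y + ((HH u y).filter (fun w => c x w = M)).card ≤ ((UU c u y x).card : ℤ) + 1 := by
  have heL := exL_nonneg u y
  have heH := exH_nonneg u y
  have hs : 1 ≤ s := by omega
  have hLH := card_LH hV hs u y
  have hlo1 := lo_pos h hV hH
  have hloL : lo m u y = m - (LL u y).card - exL u y := rfl
  have hloe : lo m u y = ((HH u y).card : ℤ) - s + 1 - exL u y := by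
    rw [hloL]; omega
  have hlo2 : lo m u y + exL u y + exH u y + s ≤ M := by omega
  have hUK := card_UK c u y x
  have hyx : 0 ≤ exL u y + y x := by
    have h1 : -y x ≤ exL u y := by
      unfold exL
      exact Finset.single_le_sum (f := fun w => -y w)
        (fun w hw => by have := (mem_LL.1 hw).2; omega) hx
    linarith
  have htc : ∀ w, ((rep (2 - lo m u y) (c x w) : ℤ) : ZMod m) = c x w := fun w => rep_cast _ _
  have hTM : ∀ w ∈ (HH u y).filter (fun w => c x w = M), rep (2 - lo m u y) (c x w) = M := by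
    intro w hw
    have hw2 := (mem_filter.1 hw).2
    refine rep_unique _ _ _ ?_ ?_ ?_
    · rw [hw2]; push_cast; rfl
    · omega
    · omega
  by_cases hTe : (HH u y).filter (fun w => c x w = M) = ∅
  · rw [hTe, Finset.card_empty]
    have h1 := perv_greedy hsym hz h hV hL hH hx (by omega)
    push_cast
    linarith
  by_contra hcon
  push Not at hcon
  obtain ⟨w₀, hw₀⟩ := Finset.nonempty_iff_ne_empty.2 hTe
  generalize hTw : (HH u y).filter (fun w => c x w = M) = Tw at *
  have hTH : Tw ⊆ HH u y := by rw [← hTw]; exact Finset.filter_subset _ _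
  have hKH : KK c u y x ⊆ HH u y := Finset.filter_subset _ _
  have hKt : ∀ w ∈ KK c u y x, rep (2 - lo m u y) (c x w) ≤ 0 := fun w hw => (mem_filter.1 hw).2
  have hdisj : Disjoint (KK c u y x) Tw := by
    rw [Finset.disjoint_left]
    intro w h1 h2
    have h3 := hKt w h1
    have h4 := hTM w h2
    omega
  have hQc := Finset.card_union_of_disjoint hdisj
  -- the weights
  obtain ⟨v, hv⟩ : ∃ v : V → ℤ, ∀ w, v w = if w ∈ Tw then 1 else 1 - rep (2 - lo m u y) (c x w) :=
    ⟨_, fun w => rfl⟩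
  have hv1 : ∀ w ∈ KK c u y x ∪ Tw, 1 ≤ v w := by
    intro w hw
    rw [hv]
    split_ifs with h1
    · exact le_refl _
    · rcases Finset.mem_union.1 hw with h2 | h2
      · have := hKt w h2; omega
      · exact absurd h2 h1
  have hv2 : ∀ w ∈ KK c u y x ∪ Tw, v w ≤ max (lo m u y - 1) 1 := by
    intro w hw
    rw [hv]
    have h3 := rep_ge (2 - lo m u y) (c x w)
    split_ifs with h1
    · exact le_max_right _ _
    · exact le_trans (by omega) (le_max_left _ _)
  -- the sums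
  have hsumB : ∀ B : Finset V, ∑ w ∈ B, (1 - rep (2 - lo m u y) (c x w)) =
      ∑ w ∈ B, v w - M * ((B.filter (fun w => w ∈ Tw)).card : ℤ) := by
    intro B
    have h1 : (M : ℤ) * ((B.filter (fun w => w ∈ Tw)).card : ℤ) =
        ∑ w ∈ B, (if w ∈ Tw then (M : ℤ) else 0) := by
      rw [← Finset.sum_filter, Finset.sum_const, nsmul_eq_mul, mul_comm]
    rw [h1, ← Finset.sum_sub_distrib]
    refine Finset.sum_congr rfl (fun w hw => ?_)
    rw [hv]
    split_ifs with h2
    · have := hTM w h2; omega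
    · omega
  have key : ∀ B : Finset V, B ⊆ KK c u y x ∪ Tw → Even (B.filter (fun w => w ∈ Tw)).card →
      lo m u y ≤ ∑ w ∈ B, v w → ∑ w ∈ B, v w ≤ lo m u y + s - 1 → (B.card : ℤ) ≤ lo m u y + 1 →
      False := by
    intro B hBQ hev hB1 hB2 hB3
    obtain ⟨i, hi⟩ := hev
    have hBH : B ⊆ HH u y := hBQ.trans (Finset.union_subset hKH hTH)
    have hsB := hsumB B
    have hmi : (M : ℤ) * ((B.filter (fun w => w ∈ Tw)).card : ℤ) = (m : ℤ) * i := by
      rw [hi, hM]; push_cast; ring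
    rw [hmi] at hsB
    have hy2 : 0 ≤ exH u y - ∑ w ∈ B, (y w - 1) := by
      have h1 : ∑ w ∈ B, (y w - 1) ≤ exH u y := by
        unfold exH
        refine Finset.sum_le_sum_of_subset_of_nonneg hBH (fun w hw _ => ?_)
        have := (mem_HH.1 hw).2
        omega
      linarith
    by_cases hc : B.card + (LL u y).card ≤ m
    · refine fam hsym hz h hV hL hH hx B hBH hc (fun w => rep (2 - lo m u y) (c x w))
        (fun w _ => htc w) ((m : ℤ) * i) ?_ ?_ (Dvd.intro _ rfl)
      · rw [hsB]; linarith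
      · rw [hsB]; linarith
    · have hBc : (B.card : ℤ) ≤ ∑ w ∈ B, v w := by
        have h5 := Finset.card_nsmul_le_sum B v 1 (fun z hz => hv1 z (hBQ hz))
        simpa using h5
      refine fam2 hsym hz h hV (by omega) (by omega) hx B hBH (by omega)
        (fun w => rep (2 - lo m u y) (c x w))
        (fun w _ => htc w) ((m : ℤ) * i) ?_ ?_ (Dvd.intro _ rfl)
      · rw [hsB]; omega
      · rw [hsB]; linarith
  -- choice of the leaves
  have hw₀Q : w₀ ∈ KK c u y x ∪ Tw := Finset.mem_union_right _ hw₀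
  have hQe := Finset.card_erase_add_one hw₀Q
  obtain ⟨B, hBQ, hBc, hB1, hB2⟩ := pickB ((KK c u y x ∪ Tw).erase w₀) v (lo m u y) hlo1
    (fun w hw => hv1 w (Finset.mem_of_mem_erase hw)) (fun w hw => hv2 w (Finset.mem_of_mem_erase hw))
    (by omega)
  have hB3 : ∑ w ∈ B, v w + 1 ≤ lo m u y + s - 1 := by
    refine le_trans (add_le_add_left hB2 1) ?_
    rcases max_cases (2 * lo m u y - 2) (lo m u y) with h1 | h1 <;> omega
  rcases Nat.even_or_odd (B.filter (fun w => w ∈ Tw)).card with hev | hodd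
  · exact key B (hBQ.trans (Finset.erase_subset _ _)) hev hB1 (by omega) (by omega)
  · have hnot : w₀ ∉ B := fun hw => (Finset.mem_erase.1 (hBQ hw)).1 rfl
    have hins := Finset.card_insert_of_notMem hnot
    refine key (insert w₀ B) ?_ ?_ ?_ ?_ ?_
    · exact Finset.insert_subset hw₀Q (hBQ.trans (Finset.erase_subset _ _))
    · rw [Finset.filter_insert, if_pos hw₀, Finset.card_insert_of_notMem
        (fun hw => hnot (Finset.mem_of_mem_filter _ hw))]
      exact hodd.add_one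
    · rw [Finset.sum_insert hnot]
      have := hv1 w₀ hw₀Q
      omega
    · rw [Finset.sum_insert hnot, hv, if_pos hw₀]
      omega
    · rw [hins]; push_cast; omega

theorem twbH [NeZero m] {c : V → V → ZMod m} (hsym : ∀ x w, c x w = c w x) (hz : ZSF m c) {u : V}
    {y : V → ℤ} (h : SL c u y) {s : ℕ} (hV : Fintype.card V = m + s) (hL : exL u y + 2 ≤ s)
    (hH : exH u y + 2 ≤ s) {M : ℕ} (hM : m = 2 * M) (hm : m + 4 ≤ 4 * s)
    (hLM : ((LL u y).card : ℤ) + exL u y + 1 ≤ M) {w : V} (hw : w ∈ HH u y) :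
    s + exH u y + ((LL u y).filter (fun x => c w x = 1 - M)).card ≤
      ((PP c u y w).card : ℤ) + 1 := by
  have h1 := twb (c := fun x w => 1 - c x w) (fun x w => by rw [hsym x w]) (zsf_refl hz)
    (sl_refl h) hV (by rw [exL_refl]; exact hH) (by rw [exH_refl]; exact hL) hM hm
    (by rw [HH_refl, exH_refl]; exact hLM) (x := w) (by rw [LL_refl]; exact hw)
  rw [exL_refl, HH_refl, UU_refl] at h1
  have h2 : (LL u y).filter (fun x => c w x = 1 - M) =
      (LL u y).filter (fun x => 1 - c w x = M) := by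
    refine Finset.filter_congr (fun x _ => ?_)
    constructor
    · intro h3; rw [h3]; ring
    · intro h3; rw [← h3]; ring
  rw [h2]
  exact h1

end E
end ZS44129
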