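import Mathlib
import Pool.Agent.Work.MP_44129c_co.E.NoTw

/-!
# MP_44129c_co/E, Goodman (size S): the per-vertex Goodman inequality

`NumE m s`: `m ≤ 4 s`, no factor 3 or `m ≤ 3 s + 2`, and for even `m = 2 M` the numerical conditions of `NoTw`.
PROOF.  `perv` and `no_tw_L` give `goodL`, `pervH` and `no_tw_H` give `goodH`; sum up and use `dc`.
-/

set_option autoImplicit false

namespace ZS44129
namespace E

open Finset

variable {V : Type} [Fintype V] [DecidableEq V] {m : ℕ}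

/-- numerical conditions for the per-vertex lemma. -/
structure NumE (m s : ℕ) : Prop where
  m4 : m ≤ 4 * s
  h3 : m ≤ 3 * s + 2 ∨ ¬ 3 ∣ m
  ev : ∀ M : ℕ, m = 2 * M → m + 4 ≤ 4 * s ∧ M * M + s < s * s + M * s + M

theorem goodL [NeZero m] {c : V → V → ZMod m} (hsym : ∀ x w, c x w = c w x) (hz : ZSF m c) {u : V}
    {y : V → ℤ} (h : SL c u y) {s : ℕ} (hV : Fintype.card V = m + s) (hL : exL u y + 2 ≤ s)
    (hH : exH u y + 2 ≤ s) (hn : NumE m s) {x : V} (hx : x ∈ LL u y) :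
    s + exL u y ≤ ((UU c u y x).card : ℤ) := by
  rcases perv hsym hz h hV hL hH hn.m4 hn.h3 hx with h1 | ⟨M, hM, h2, -⟩
  · exact h1
  · exact absurd h2 (no_tw_L hsym hz h hV hL hH hM (hn.ev M hM).1 hn.h3 (hn.ev M hM).2)

theorem goodH [NeZero m] {c : V → V → ZMod m} (hsym : ∀ x w, c x w = c w x) (hz : ZSF m c) {u : V}
    {y : V → ℤ} (h : SL c u y) {s : ℕ} (hV : Fintype.card V = m + s) (hL : exL u y + 2 ≤ s)
    (hH : exH u y + 2 ≤ s) (hn : NumE m s) {w : V} (hw : w ∈ HH u y) :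
    s + exH u y ≤ ((PP c u y w).card : ℤ) := by
  rcases pervH hsym hz h hV hL hH hn.m4 hn.h3 hw with h1 | ⟨M, hM, h2, -⟩
  · exact h1
  · exact absurd h2 (no_tw_H hsym hz h hV hL hH hM (hn.ev M hM).1 hn.h3 (hn.ev M hM).2)

/-- `4 l h + exL exH ≥ 4 s (l + h) + 4 l exL + 4 h exH`. -/
theorem goodman_star [NeZero m] {c : V → V → ZMod m} (hsym : ∀ x w, c x w = c w x) (hz : ZSF m c)
    {u : V} {y : V → ℤ} (h : SL c u y) {s : ℕ} (hV : Fintype.card V = m + s)
    (hL : exL u y + 2 ≤ s) (hH : exH u y + 2 ≤ s) (hn : NumE m s) :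
    4 * (((LL u y).card : ℤ) * (s + exL u y) + (HH u y).card * (s + exH u y)) ≤
      4 * ((LL u y).card * (HH u y).card : ℤ) + exL u y * exH u y := by
  have h1 := dc hsym hz h hV hL hH
  have h2 : ((LL u y).card : ℤ) * (s + exL u y) ≤ ∑ x ∈ LL u y, ((UU c u y x).card : ℤ) := by
    rw [← nsmul_eq_mul]
    exact Finset.card_nsmul_le_sum _ _ _ (fun x hx => goodL hsym hz h hV hL hH hn hx)
  have h3 : ((HH u y).card : ℤ) * (s + exH u y) ≤ ∑ w ∈ HH u y, ((PP c u y w).card : ℤ) := by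
    rw [← nsmul_eq_mul]
    exact Finset.card_nsmul_le_sum _ _ _ (fun w hw => goodH hsym hz h hV hL hH hn hw)
  linarith

/-- for `m ≤ 3 s` (`t < 0`) there is no star lift with small excess. -/
theorem no_star [NeZero m] {c : V → V → ZMod m} (hsym : ∀ x w, c x w = c w x) (hz : ZSF m c)
    {u : V} {y : V → ℤ} (h : SL c u y) {s : ℕ} (hV : Fintype.card V = m + s)
    (hL : exL u y + 2 ≤ s) (hH : exH u y + 2 ≤ s) (hn : NumE m s) (hm : m ≤ 3 * s) : False := by
  have h1 := goodman_star hsym hz h hV hL hH hn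
  have a0 := exL_nonneg u y
  have b0 := exH_nonneg u y
  have hs : 1 ≤ s := by
    have h0 : (2 : ℤ) ≤ s := by linarith
    omega
  have hc := card_LH hV hs u y
  have h2 : ((LL u y).card : ℤ) + (HH u y).card + 1 = m + s := by exact_mod_cast hc
  have h3 : (m : ℤ) ≤ 3 * s := by exact_mod_cast hm
  have h4 := exL_le h hV hH
  have h5 := exH_le h hV hL
  have hs1 : (1 : ℤ) ≤ s := by exact_mod_cast hs
  generalize exL u y = a at *
  generalize exH u y = b at *
  generalize ((LL u y).card : ℤ) = l at *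
  generalize ((HH u y).card : ℤ) = k at *
  have e1 : 0 ≤ (l + k) * (4 * s - 1 - (l + k)) := mul_nonneg (by linarith) (by linarith)
  have e2 := sq_nonneg (l - k)
  have e3 : 0 ≤ a * (l - b) := mul_nonneg a0 (by linarith)
  have e4 : 0 ≤ l * a := mul_nonneg (by linarith) a0
  have e5 : 0 ≤ k * b := mul_nonneg (by linarith) b0
  nlinarith

end E
end ZS44129
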